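import Mathlib
import Pool.Agent.H13.W.Graph
import Pool.Agent.H33.FM.Three
import Pool.Agent.H21.FM.Facts
import Pool.Agent.H58.W.Coin

set_option autoImplicit false
open Finset

/-! # Strand graph and crossing event of a shape with four marks

`x1 .. x4` = the loose corners outside the four marks. For every configuration `ω` of the polygon (plates
= solid sets of labels are allowed): in the strand graph `SG Λ D w` the corner `x4` is joined to `x3` iff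
the arcs II and IV are connected (`TT`), and to `x1` otherwise. -/

namespace Pool.Agent.H37.W

open Pool.Agent.H75.Perc hiding WL CT hh
open Pool.Agent.H75.TwoArm Pool.Agent.H75.Four Pool.Agent.H69.Q1 Pool.Agent.Q1
open Pool.Agent.H5.Q1 (oc vx_oc ty_oc fi_oc oc_congr oc_inj eq_oc)
open Pool.Agent.Q1.M4 (Cell Good IsSide nextSide tail head PType)
open Pool.Agent.H33.Q1 Pool.Agent.H21.FM
open Pool.Agent.H13.W Pool.Agent.H99.W Pool.Agent.H58.W
open Pool.Agent.H33.FM (mem_W0 side_isSide wd_lt fr_lt fr_ltN side_inj threeW)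

variable {S : Shape} {h : ℕ}

/-! ### The tiles -/

/-- the diagonal label at the vertex between the sides `i` and `i + 1` -/
def dg (S : Shape) (h : ℕ) (i : ℕ) : ℤ × ℤ := ql (wv h (S.P.side (i + 1)) 0) (S.k i)

/-- `i + 1` is a mark -/
def Mk (S : Shape) (i : ℕ) : Prop := i + 1 = S.m2 ∨ i + 1 = S.m3 ∨ i + 1 = S.P.m ∨ i + 1 = S.P.N

/-- convex vertex between two free sides -/
def FF (S : Shape) (i : ℕ) : Prop :=
  S.Fr i ∧ S.Fr (i + 1) ∧ S.P.side (i + 1) = ((S.P.side i).1, (S.P.side i).2 + 1)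

open Classical in
/-- the tiles which a strand can use: random tiles, wall layers, tiles behind the convex corners of the
free arcs -/
noncomputable def LamS (S : Shape) (h : ℕ) : Finset (ℤ × ℤ) :=
  EE S h ∪ ((range S.N).biUnion fun i => LY (2 * h) (S.P.side i)) ∪
    ((range S.N).filter (FF S)).image (dg S h)

lemma mem_LamS {e : ℤ × ℤ} : e ∈ LamS S h ↔ e ∈ EE S h ∨ (∃ i < S.N, e ∈ LY (2 * h) (S.P.side i)) ∨
    ∃ i < S.N, FF S i ∧ dg S h i = e := by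
  classical
  unfold LamS
  rw [mem_union, mem_union, mem_biUnion, mem_image, or_assoc]
  simp only [mem_range, mem_filter, and_assoc]

/-- tile sets `Λ` which contain all these tiles, but not the diagonal tiles at the marks -/
structure LamOK (S : Shape) (h : ℕ) (Λ : Set (ℤ × ℤ)) : Prop where
  sub : ∀ e ∈ LamS S h, e ∈ Λ
  mark : ∀ i, Mk S i → dg S h i ∉ Λ

/-! ### Diagonal tiles -/

lemma mul_add_inj {n a b d e : ℤ} (hn : 2 ≤ n) (h : n * a + d = n * b + e) (hd : -1 ≤ d) (hd' : d ≤ 0)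
    (he : -1 ≤ e) (he' : e ≤ 0) : a = b ∧ d = e := by
  have h1 : a = b := by
    rcases lt_trichotomy a b with h1 | h1 | h1
    · nlinarith
    · exact h1
    · nlinarith
  subst h1
  exact ⟨rfl, by linarith⟩

/-- the diagonal tile determines the side -/
lemma diag_inj {n : ℤ} (hn : 2 ≤ n) {s s' : Cell × ℤ} (h : ot n s n = ot n s' n) :
    s.1 = s'.1 ∧ (s.2 - s'.2) % 4 = 0 := by
  have key : ∀ s : Cell × ℤ, ∃ d : ℤ × ℤ, ot n s n =
      (n * ((tail s).1 + (dir s.2).1) + d.1, n * ((tail s).2 + (dir s.2).2) + d.2) ∧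
      -1 ≤ d.1 ∧ d.1 ≤ 0 ∧ -1 ≤ d.2 ∧ d.2 ≤ 0 ∧
      ((s.2 % 4 = 0 ∧ d = (0, -1)) ∨ (s.2 % 4 = 1 ∧ d = (0, 0)) ∨ (s.2 % 4 = 2 ∧ d = (-1, 0)) ∨
        (s.2 % 4 = 3 ∧ d = (-1, -1))) := by
    intro s
    obtain ⟨o0, o1, o2, o3⟩ := ot_eq n s n
    rcases io_dir s.2 with ⟨a, -, -, -⟩ | ⟨a, -, -, -⟩ | ⟨a, -, -, -⟩ | ⟨a, -, -, -⟩
    · refine ⟨(0, -1), ?_, by simp, by simp, by simp, by simp, Or.inl ⟨a, rfl⟩⟩
      rw [o0 a]; unfold wp; refine Prod.ext ?_ ?_ <;> simp only [Prod.mk_add_mk] <;> ring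
    · refine ⟨(0, 0), ?_, by simp, by simp, by simp, by simp, Or.inr (Or.inl ⟨a, rfl⟩)⟩
      rw [o1 a]; unfold wp; refine Prod.ext ?_ ?_ <;> simp only <;> ring
    · refine ⟨(-1, 0), ?_, by simp, by simp, by simp, by simp, Or.inr (Or.inr (Or.inl ⟨a, rfl⟩))⟩
      rw [o2 a]; unfold wp; refine Prod.ext ?_ ?_ <;> simp only [Prod.mk_add_mk] <;> ring
    · refine ⟨(-1, -1), ?_, by simp, by simp, by simp, by simp, Or.inr (Or.inr (Or.inr ⟨a, rfl⟩))⟩
      rw [o3 a]; unfold wp; refine Prod.ext ?_ ?_ <;> simp only [Prod.mk_add_mk] <;> ring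
  obtain ⟨d, e1, b1, b2, b3, b4, c⟩ := key s
  obtain ⟨d', e1', b1', b2', b3', b4', c'⟩ := key s'
  rw [e1, e1', Prod.ext_iff] at h
  simp only at h
  obtain ⟨p1, q1⟩ := mul_add_inj hn h.1 b1 b2 b1' b2'
  obtain ⟨p2, q2⟩ := mul_add_inj hn h.2 b3 b4 b3' b4'
  have hd : d = d' := Prod.ext q1 q2
  have hk : s.2 % 4 = s'.2 % 4 := by
    subst hd
    rcases c with ⟨a, c⟩ | ⟨a, c⟩ | ⟨a, c⟩ | ⟨a, c⟩ <;>
      rcases c' with ⟨a', c'⟩ | ⟨a', c'⟩ | ⟨a', c'⟩ | ⟨a', c'⟩ <;>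
      first
      | exact a.trans a'.symm
      | (exfalso; rw [c] at c'; simp at c')
  refine ⟨?_, by omega⟩
  have hdir : dir s.2 = dir s'.2 := dir_congr hk
  have hio : io s.2 = io s'.2 := by unfold io; rw [hk]
  rw [hdir] at p1 p2
  have ht : tail s = tail s' := Prod.ext (by linarith) (by linarith)
  rw [tail_io, tail_io, hio] at ht
  exact sub_left_inj.1 ht

lemma dg_eq (S : Shape) (h : ℕ) (i : ℕ) : dg S h i = lt (ot (2 * h) (S.P.side i) (2 * h)) := by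
  unfold dg
  rw [lt_diag h S.P.Q, ← side_succ']
  unfold ql Shape.k
  have : wv h (S.P.side (i + 1)) 0 = rvS h (S.P.side (i + 1)) := by
    unfold wv rvS; refine Prod.ext ?_ ?_ <;> simp
  rw [this]

lemma dg_inj (hh : 1 ≤ h) {i j : ℕ} (hi : i < S.N) (hj : j < S.N) (e : dg S h i = dg S h j) :
    i = j := by
  rw [dg_eq, dg_eq] at e
  have h1 := congrArg tt e
  rw [tt_lt, tt_lt] at h1
  obtain ⟨a, b⟩ := diag_inj (by omega) h1
  exact side_inj S hi hj a b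

/-- the cells at a convex vertex -/
lemma cvx_cells {i : ℕ} (hc : S.P.side (i + 1) = ((S.P.side i).1, (S.P.side i).2 + 1)) :
    (S.P.side i).1 + dir (S.P.side i).2 + dir ((S.P.side i).2 - 1) ∉ S.P.Q ∧
      (S.P.side i).1 + dir (S.P.side i).2 ∉ S.P.Q := by
  have hnext : nextSide S.P.Q (S.P.side i) = ((S.P.side i).1, (S.P.side i).2 + 1) := by
    rw [← side_succ']; exact hc
  rcases next_cases S.P.Q (S.P.side i) with ⟨-, e⟩ | ⟨-, -, e⟩ | ⟨h1, h2, -⟩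
  · rw [hnext] at e
    have := congrArg Prod.snd e
    simp only at this
    omega
  · rw [hnext] at e
    have := congrArg Prod.snd e
    simp only at this
    omega
  · exact ⟨h1, h2⟩

lemma dg_not_LY (hh : 1 ≤ h) {i j : ℕ}
    (hc : S.P.side (i + 1) = ((S.P.side i).1, (S.P.side i).2 + 1)) :
    dg S h i ∉ LY (2 * h) (S.P.side j) := by
  obtain ⟨h1, h2⟩ := cvx_cells hc
  rw [dg_eq]
  exact diag_LY (by omega) (side_isSide S i) h1 h2 (side_isSide S j)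

lemma dg_not_EE (hh : 1 ≤ h) {i : ℕ}
    (hc : S.P.side (i + 1) = ((S.P.side i).1, (S.P.side i).2 + 1)) : dg S h i ∉ EE S h := by
  obtain ⟨h1, h2⟩ := cvx_cells hc
  have hn : (0 : ℤ) < 2 * h := by omega
  rw [dg_eq]
  unfold Pool.Agent.H21.FM.EE
  rw [lt_mem_TL hn]
  have hc' : ct (2 * h) (ot (2 * h) (S.P.side i) (2 * h)) =
      (S.P.side i).1 + dir (S.P.side i).2 + dir ((S.P.side i).2 - 1) := by
    rw [ct_eq hn]
    unfold ot it wp
    rw [tail_io]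
    rcases io_dir (S.P.side i).2 with ⟨-, b, c, d⟩ | ⟨-, b, c, d⟩ | ⟨-, b, c, d⟩ | ⟨-, b, c, d⟩ <;>
      rw [b, c, d] <;>
      simp only [Prod.fst_add, Prod.snd_add, Prod.fst_sub, Prod.snd_sub] <;>
      refine ⟨⟨?_, ?_⟩, ?_, ?_⟩ <;> nlinarith
  rw [hc']
  exact h1

lemma Mk.lt {i : ℕ} (hm : Mk S i) : i < S.N := by
  have a1 := S.h02; have a2 := S.h23; have a3 := S.h34; have a4 := S.P.hmN
  unfold Mk at hm; unfold Shape.N
  omega

lemma Mk.not_FF {i : ℕ} (hm : Mk S i) : ¬ FF S i := by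
  rintro ⟨h1, h2, -⟩
  have a1 := S.h02; have a2 := S.h23; have a3 := S.h34; have a4 := S.P.hmN
  unfold Mk at hm; unfold Shape.Fr Shape.m4 at h1 h2
  omega

/-- **The smallest admissible set of tiles.** -/
theorem lamOK_LamS (hh : 1 ≤ h) : LamOK S h (LamS S h : Set (ℤ × ℤ)) := by
  refine ⟨fun e he => he, fun i hm hmem => ?_⟩
  have hc := S.cvx i hm
  rcases mem_LamS.1 (mem_coe.1 hmem) with h1 | ⟨j, -, h1⟩ | ⟨j, hj, h1, h2⟩
  · exact dg_not_EE hh hc h1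
  · exact dg_not_LY hh hc h1
  · have := dg_inj hh hj hm.lt h2
    subst this
    exact hm.not_FF h1

/-! ### The loose corners at the marks -/

/-- the loose corner outside the first mark -/
def x1 (S : Shape) (h : ℕ) : ℤ × ℤ := r1 S h
/-- the loose corner outside the second mark -/
def x2 (S : Shape) (h : ℕ) : ℤ × ℤ := oc (wv h (S.P.side S.m2) 0) (S.k S.m2)
/-- the loose corner outside the third mark -/
def x3 (S : Shape) (h : ℕ) : ℤ × ℤ := r3 S h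
/-- the loose corner outside the fourth mark -/
def x4 (S : Shape) (h : ℕ) : ℤ × ℤ := oc (wv h (S.P.side S.m4) 0) (S.k S.m4)

lemma k_mk {i : ℕ} (hm : Mk S i) : S.k (i + 1) = S.k i + 1 := by
  unfold Shape.k
  rw [S.cvx i hm]

lemma mk2 (S : Shape) : Mk S (S.m2 - 1) := by
  have a1 := S.h02; have a2 := S.h23; have a3 := S.h34; have a4 := S.P.hmN
  unfold Mk; omega
lemma mk3 (S : Shape) : Mk S (S.m3 - 1) := by
  have a1 := S.h02; have a2 := S.h23; have a3 := S.h34; have a4 := S.P.hmN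
  unfold Mk; omega
lemma mk4 (S : Shape) : Mk S (S.m4 - 1) := by
  have a1 := S.h02; have a2 := S.h23; have a3 := S.h34; have a4 := S.P.hmN
  unfold Mk; unfold Shape.m4; omega
lemma mk1 (S : Shape) : Mk S (S.N - 1) := by
  have a1 := S.h02; have a2 := S.h23; have a3 := S.h34; have a4 := S.P.hmN
  unfold Mk; unfold Shape.N; omega

lemma plab_x1 (S : Shape) (h : ℕ) : plab (x1 S h) = dg S h (S.N - 1) := by
  obtain ⟨a1, a2, a3, a4⟩ := S.pos
  have e : S.N - 1 + 1 = S.N := by omega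
  have hk := k_mk (mk1 S)
  rw [e, S.kN] at hk
  unfold x1 r1 dg v1
  rw [plab_oc, e, wv_side_N]
  exact ql_congr _ (by omega)

lemma plab_x3 (S : Shape) (h : ℕ) : plab (x3 S h) = dg S h (S.m3 - 1) := by
  obtain ⟨a1, a2, a3, a4⟩ := S.pos
  have e : S.m3 - 1 + 1 = S.m3 := by omega
  have hk := k_mk (mk3 S)
  rw [e] at hk
  unfold x3 r3 dg v3
  rw [plab_oc, e]
  exact ql_congr _ (by omega)

lemma lab_x2 (S : Shape) (h : ℕ) : lab (x2 S h) = dg S h (S.m2 - 1) := by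
  obtain ⟨a1, a2, a3, a4⟩ := S.pos
  have e : S.m2 - 1 + 1 = S.m2 := by omega
  have hk := k_mk (mk2 S)
  rw [e] at hk
  unfold x2 dg
  rw [lab_oc, e]
  exact ql_congr _ (by omega)

lemma lab_x4 (S : Shape) (h : ℕ) : lab (x4 S h) = dg S h (S.m4 - 1) := by
  obtain ⟨a1, a2, a3, a4⟩ := S.pos
  have e : S.m4 - 1 + 1 = S.m4 := by omega
  have hk := k_mk (mk4 S)
  rw [e] at hk
  unfold x4 dg
  rw [lab_oc, e]
  exact ql_congr _ (by omega)

lemma e2_eq (S : Shape) (h : ℕ) : e2 S h = oc (wv h (S.P.side S.m2) 0) (S.k S.m2 - 1) := by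
  obtain ⟨a1, a2, a3, a4⟩ := S.pos
  have e : S.m2 - 1 + 1 = S.m2 := by omega
  have hk := k_mk (mk2 S)
  rw [e] at hk
  unfold e2 exi
  rw [wv_last h S.P.Q, ← S.succ, e, hk]
  unfold Shape.k
  rw [add_sub_cancel_right]

lemma e4_eq (S : Shape) (h : ℕ) : e4 S h = oc (wv h (S.P.side S.m4) 0) (S.k S.m4 - 1) := by
  obtain ⟨a1, a2, a3, a4⟩ := S.pos
  have e : S.m4 - 1 + 1 = S.m4 := by omega
  have hk := k_mk (mk4 S)
  rw [e] at hk
  unfold e4 exi
  rw [wv_last h S.P.Q, ← S.succ, e, hk]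
  unfold Shape.k
  rw [add_sub_cancel_right]

variable {ω W : Finset (ℤ × ℤ)}

lemma nx_e2 (hh : 0 < h) (hω : ω ⊆ EE S h) (hW : Wir S h W) : nx (ω ∪ W) (e2 S h) = x2 S h := by
  have h1 := out_notMem hω hh hW S.fr2 (lab_e2 hh)
  rw [e2_eq, lab_oc] at h1
  rw [e2_eq, nx_closed h1]
  unfold x2
  rw [sub_add_cancel]

lemma nx_e4 (hh : 0 < h) (hω : ω ⊆ EE S h) (hW : Wir S h W) : nx (ω ∪ W) (e4 S h) = x4 S h := by
  have h1 := out_notMem hω hh hW S.fr4 (lab_e4 hh)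
  rw [e4_eq, lab_oc] at h1
  rw [e4_eq, nx_closed h1]
  unfold x4
  rw [sub_add_cancel]

/-! ### The strands use only tiles of `LamS` -/

lemma wir_insert {e : ℤ × ℤ} (hW : Wir S h W) (ho : (e.1 + e.2) % 2 = 1) (he : e ∉ LamS S h) :
    Wir S h (insert e W) := by
  rw [mem_LamS, not_or, not_or] at he
  obtain ⟨h1, h2, h3⟩ := he
  refine ⟨?_, ?_, ?_, ?_, ?_⟩
  · intro e' he'
    rcases mem_insert.1 he' with rfl | he'
    · exact ho
    · exact hW.odd e' he'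
  · rw [disjoint_insert_right]
    exact ⟨h1, hW.disj⟩
  · exact fun i hi => (hW.wired i hi).trans (subset_insert _ _)
  · intro i hi
    rw [disjoint_insert_right]
    exact ⟨fun h4 => h2 ⟨i, fr_ltN hi, h4⟩, hW.free i hi⟩
  · intro i hi hi' hc h4
    rcases mem_insert.1 h4 with h5 | h5
    · exact h3 ⟨i, fr_ltN hi, ⟨hi, hi', hc⟩, h5⟩
    · exact hW.diag i hi hi' hc h5

lemma lab_odd (z : ℤ × ℤ) : ((lab z).1 + (lab z).2) % 2 = 1 := by
  rw [eq_oc z, lab_oc]; exact ql_odd _ _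

/-- the tile in front of a common corner -/
lemma lab_CC (hh : 0 < h) (hW : Wir S h W) {z : ℤ × ℤ} (hz : CC S h z) : lab z ∈ LamS S h := by
  by_contra hn
  have hn' := hn
  rw [mem_LamS, not_or, not_or] at hn'
  obtain ⟨h1, h2, h3⟩ := hn'
  rcases hz with hz | hz | ⟨i, hi, j, hj1, hj, hz | hz⟩
  · exact h1 hz
  · have e := eq_oc z
    have hl : lab z = ql (vx z) (ty z - 1) := by
      conv_lhs => rw [e]
      rw [lab_oc]
    rcases hz (ty z - 1) with h4 | h4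
    · rw [← hl] at h4; exact h1 h4
    · rw [← hl] at h4
      exact h4 _ (wir_insert hW (lab_odd z) hn) (mem_insert_self _ _)
  · apply h2
    refine ⟨i, wd_lt hi, ?_⟩
    rw [hz]; unfold exi; rw [lab_oc]
    exact ly_out' hh _ hj1 hj
  · apply h2
    refine ⟨i, wd_lt hi, ?_⟩
    obtain ⟨j, rfl⟩ : ∃ j', j = j' + 1 := ⟨j - 1, by omega⟩
    rw [hz]; unfold mid
    rw [lab_oc, ql_mid]
    exact ly_out hh _ (by omega)

/-! ### Strand graph -/

variable {Λ D : Set (ℤ × ℤ)} {w : Finset (ℤ × ℤ)}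

lemma SG_step {c : ℤ × ℤ} (h1 : lab c ∈ Λ) (h2 : lab c ∉ D) : (SG Λ D w).Adj c (nx w c) :=
  SG_adj.2 ⟨lab c, h1, Or.inr ⟨h2, Or.inl ⟨rfl, rfl⟩⟩⟩

lemma SG_iter {c : ℤ × ℤ} : ∀ n : ℕ, (∀ s < n, lab ((nx w)^[s] c) ∈ Λ ∧ lab ((nx w)^[s] c) ∉ D) →
    (SG Λ D w).Reachable c ((nx w)^[n] c) := by
  intro n
  induction n with
  | zero => intro _; exact SimpleGraph.Reachable.refl _
  | succ n ih =>
    intro hs
    have h1 := ih fun s h2 => hs s (by omega)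
    refine h1.trans ?_
    rw [Function.iterate_succ_apply']
    exact (SG_step (hs n (by omega)).1 (hs n (by omega)).2).reachable

/-- the states of the tiles in `LamS` are those of the shape -/
structure Conf (S : Shape) (h : ℕ) (ω : Finset (ℤ × ℤ)) (Λ D : Set (ℤ × ℤ)) (w : Finset (ℤ × ℤ)) :
    Prop where
  ok : LamOK S h Λ
  del : ∀ e ∈ LamS S h, e ∉ D
  st : ∀ e ∈ LamS S h, (e ∈ w ↔ e ∈ ω ∪ W0 S h)

lemma Conf.nx (C : Conf S h ω Λ D w) {c : ℤ × ℤ} (hc : lab c ∈ LamS S h) :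
    Pool.Agent.H75.Perc.nx w c = Pool.Agent.H75.Perc.nx (ω ∪ W0 S h) c := by
  unfold Pool.Agent.H75.Perc.nx
  simp only [C.st _ hc]

lemma Conf.iter (C : Conf S h ω Λ D w) {c : ℤ × ℤ} : ∀ n : ℕ,
    (∀ s < n, lab ((Pool.Agent.H75.Perc.nx (ω ∪ W0 S h))^[s] c) ∈ LamS S h) →
    (Pool.Agent.H75.Perc.nx w)^[n] c = (Pool.Agent.H75.Perc.nx (ω ∪ W0 S h))^[n] c := by
  intro n
  induction n with
  | zero => intro _; rfl
  | succ n ih =>
    intro hs
    rw [Function.iterate_succ_apply', Function.iterate_succ_apply', ih fun s h2 => hs s (by omega)]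
    exact C.nx (hs n (by omega))

lemma Conf.reach (C : Conf S h ω Λ D w) {c : ℤ × ℤ} (n : ℕ)
    (hs : ∀ s < n, lab ((Pool.Agent.H75.Perc.nx (ω ∪ W0 S h))^[s] c) ∈ LamS S h) :
    (SG Λ D w).Reachable c ((Pool.Agent.H75.Perc.nx (ω ∪ W0 S h))^[n] c) := by
  rw [← C.iter n hs]
  apply SG_iter
  intro s h1
  rw [C.iter s fun s' h2 => hs s' (by omega)]
  exact ⟨C.ok.sub _ (hs s h1), C.del _ (hs s h1)⟩

/-- the strand from the first (third) mark -/
lemma Conf.reach_pth (C : Conf S h ω Λ D w) (hh : 1 ≤ h) {r c e x : ℤ × ℤ} {T : ℕ}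
    (hr : lab r ∈ LamS S h) (hrc : Pool.Agent.H75.Perc.nx (ω ∪ W0 S h) r = c)
    (P : Pth S h (ω ∪ W0 S h) c T e) (he : lab e ∈ LamS S h)
    (hx : Pool.Agent.H75.Perc.nx (ω ∪ W0 S h) e = x) : (SG Λ D w).Reachable r x := by
  have h1 := C.reach (c := r) (T + 2) (by
    intro s hs
    rcases s with _ | s
    · exact hr
    · rw [Function.iterate_succ_apply, hrc]
      rcases Nat.lt_or_ge s T with h2 | h2
      · exact lab_CC hh (Pool.Agent.H33.FM.wir_W0 hh) (P.com s h2)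
      · have : s = T := by omega
        rw [this, P.fin]; exact he)
  rw [Function.iterate_succ_apply, hrc, Function.iterate_succ_apply', P.fin, hx] at h1
  exact h1

lemma Conf.end1 (C : Conf S h ω Λ D w) : IsEnd (SG Λ D w) (x1 S h) :=
  isEnd_of_notMem (Or.inr (by rw [plab_x1]; exact C.ok.mark _ (mk1 S)))
lemma Conf.end3 (C : Conf S h ω Λ D w) : IsEnd (SG Λ D w) (x3 S h) :=
  isEnd_of_notMem (Or.inr (by rw [plab_x3]; exact C.ok.mark _ (mk3 S)))
lemma Conf.end2 (C : Conf S h ω Λ D w) : IsEnd (SG Λ D w) (x2 S h) :=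
  isEnd_of_notMem (Or.inl (by rw [lab_x2]; exact C.ok.mark _ (mk2 S)))
lemma Conf.end4 (C : Conf S h ω Λ D w) : IsEnd (SG Λ D w) (x4 S h) :=
  isEnd_of_notMem (Or.inl (by rw [lab_x4]; exact C.ok.mark _ (mk4 S)))

lemma lay_mem {i : ℕ} (hi : i < S.N) {e : ℤ × ℤ} (he : e ∈ LY (2 * h) (S.P.side i)) :
    e ∈ LamS S h := mem_LamS.2 (Or.inr (Or.inl ⟨i, hi, he⟩))

lemma lab_x1_mem (hh : 0 < h) : lab (x1 S h) ∈ LamS S h := by
  obtain ⟨a1, a2, a3, a4⟩ := S.pos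
  exact lay_mem (by omega) (lab_r1 hh)
lemma lab_x3_mem (hh : 0 < h) : lab (x3 S h) ∈ LamS S h := by
  obtain ⟨a1, a2, a3, a4⟩ := S.pos
  exact lay_mem (by omega) (lab_r3 hh)
lemma lab_e2_mem (hh : 0 < h) : lab (e2 S h) ∈ LamS S h := by
  obtain ⟨a1, a2, a3, a4⟩ := S.pos
  exact lay_mem (by omega) (lab_e2 hh)
lemma lab_e4_mem (hh : 0 < h) : lab (e4 S h) ∈ LamS S h := by
  obtain ⟨a1, a2, a3, a4⟩ := S.pos
  exact lay_mem (by omega) (lab_e4 hh)

/-- the loose corners are distinct -/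
lemma x_ne (hh : 1 ≤ h) : x1 S h ≠ x3 S h ∧ x2 S h ≠ x4 S h ∧
    (∀ a ∈ ({x1 S h, x3 S h} : Set (ℤ × ℤ)), ∀ b ∈ ({x2 S h, x4 S h} : Set (ℤ × ℤ)), a ≠ b) := by
  have hO := lamOK_LamS (S := S) hh
  have hω : (∅ : Finset (ℤ × ℤ)) ⊆ EE S h := empty_subset _
  have hW := Pool.Agent.H33.FM.wir_W0 (S := S) hh
  refine ⟨fun e => ?_, fun e => ?_, ?_⟩
  · apply c1_ne_c3 (S := S) (h := h) hh
    rw [← (nx_r1 hh hω hW).1, ← (nx_r3 hh hω hW).1]
    unfold x1 x3 at e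
    rw [e]
  · apply e2_ne_e4 (S := S) (h := h) hh
    rw [← nx_e2 hh hω hW, ← nx_e4 hh hω hW] at e
    exact nx_injective _ e
  · intro a ha b hb hab
    have h1 : lab a ∈ LamS S h := by
      rcases ha with rfl | ha
      · exact lab_x1_mem hh
      · rw [Set.mem_singleton_iff] at ha; rw [ha]; exact lab_x3_mem hh
    have h2 : lab b ∉ (LamS S h : Set (ℤ × ℤ)) := by
      rcases hb with rfl | hb
      · rw [lab_x2]; exact hO.mark _ (mk2 S)
      · rw [Set.mem_singleton_iff] at hb; rw [hb, lab_x4]; exact hO.mark _ (mk4 S)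
    exact h2 (mem_coe.2 (hab ▸ h1))

/-- **Bridge.** The pairing of the four marks in the strand graph and the crossing event. -/
theorem Conf.bridge (C : Conf S h ω Λ D w) (hh : 4 ≤ h) (hω : ω ⊆ EE S h) :
    (TT S h ω ∧ (SG Λ D w).Reachable (x1 S h) (x2 S h) ∧ (SG Λ D w).Reachable (x3 S h) (x4 S h)) ∨
    (¬ TT S h ω ∧ (SG Λ D w).Reachable (x1 S h) (x4 S h) ∧
      (SG Λ D w).Reachable (x3 S h) (x2 S h)) := by
  have hh0 : 0 < h := by omega
  have Q := threeW S hh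
  have H := hug S hh0
  have hd := dco_c13 hh0 Q.w0 Q.dco
  have hX := typX_of_dco H hh0 Q.w0 hd
  obtain ⟨T, e, P⟩ := exists_pth hh0 hω Q.w0 (c := c1 S h) (Or.inl rfl)
  obtain ⟨T', e', P'⟩ := exists_pth hh0 hω Q.w0 (c := c3 S h) (Or.inr rfl)
  have t1 := tt_iff hh0 Q.w0 hX hd hω P
  have t3 := tt_iff3 hh0 Q.w0 hX hd hω P'
  have r1c := (nx_r1 hh0 hω Q.w0).1
  have r3c := (nx_r3 hh0 hω Q.w0).1
  by_cases ht : TT S h ω
  · left
    have e1 := t1.1 ht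
    have e3 := t3.1 ht
    subst e1; subst e3
    exact ⟨ht, C.reach_pth (by omega) (lab_x1_mem hh0) r1c P (lab_e2_mem hh0)
      (nx_e2 hh0 hω Q.w0), C.reach_pth (by omega) (lab_x3_mem hh0) r3c P' (lab_e4_mem hh0)
      (nx_e4 hh0 hω Q.w0)⟩
  · right
    have e1 : e = e4 S h := P.tgt.resolve_left fun h1 => ht (t1.2 h1)
    have e3 : e' = e2 S h := P'.tgt.resolve_right fun h1 => ht (t3.2 h1)
    subst e1; subst e3
    exact ⟨ht, C.reach_pth (by omega) (lab_x1_mem hh0) r1c P (lab_e4_mem hh0)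
      (nx_e4 hh0 hω Q.w0), C.reach_pth (by omega) (lab_x3_mem hh0) r3c P' (lab_e2_mem hh0)
      (nx_e2 hh0 hω Q.w0)⟩

/-- the four marks, all pairs -/
theorem Conf.reach_iff (C : Conf S h ω Λ D w) (hh : 4 ≤ h) (hω : ω ⊆ EE S h) :
    ((SG Λ D w).Reachable (x4 S h) (x3 S h) ↔ TT S h ω) ∧
    ((SG Λ D w).Reachable (x4 S h) (x1 S h) ↔ ¬ TT S h ω) ∧
    ((SG Λ D w).Reachable (x2 S h) (x1 S h) ↔ TT S h ω) ∧
    ((SG Λ D w).Reachable (x2 S h) (x3 S h) ↔ ¬ TT S h ω) ∧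
    ¬ (SG Λ D w).Reachable (x4 S h) (x2 S h) ∧ ¬ (SG Λ D w).Reachable (x1 S h) (x3 S h) := by
  obtain ⟨n13, n24, n⟩ := x_ne (S := S) (h := h) (by omega)
  have n12 : x1 S h ≠ x2 S h := n _ (Or.inl rfl) _ (Or.inl rfl)
  have n14 : x1 S h ≠ x4 S h := n _ (Or.inl rfl) _ (Or.inr rfl)
  have n32 : x3 S h ≠ x2 S h := n _ (Or.inr rfl) _ (Or.inl rfl)
  have n34 : x3 S h ≠ x4 S h := n _ (Or.inr rfl) _ (Or.inr rfl)
  have hd : Deg2 (SG Λ D w) := SG_deg2
  have e1 := C.end1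
  have e2 := C.end2
  have e3 := C.end3
  have e4 := C.end4
  have no : ∀ {a b c : ℤ × ℤ}, IsEnd (SG Λ D w) a → IsEnd (SG Λ D w) b → IsEnd (SG Λ D w) c →
      (SG Λ D w).Reachable a b → a ≠ b → c ≠ a → c ≠ b → ¬ (SG Λ D w).Reachable a c := by
    intro a b c ha hb hc hab hne hca hcb hac
    rcases ends_two hd ha hb hc hab hac hne with h1 | h1
    · exact hca h1
    · exact hcb h1
  rcases C.bridge hh hω with ⟨ht, p, q⟩ | ⟨ht, p, q⟩
  · have k1 := no e4 e3 e1 q.symm n34.symm n14 n13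
    have k2 := no e4 e3 e2 q.symm n34.symm n24 n32.symm
    have k3 := no e2 e1 e3 p.symm n12.symm n32 n13.symm
    have k4 := no e1 e2 e3 p n12 n13.symm n32
    exact ⟨iff_of_true q.symm ht, iff_of_false k1 (not_not.2 ht), iff_of_true p.symm ht,
      iff_of_false k3 (not_not.2 ht), k2, k4⟩
  · have k1 := no e4 e1 e3 p.symm n14.symm n34 n13.symm
    have k2 := no e4 e1 e2 p.symm n14.symm n24 n12.symm
    have k3 := no e2 e3 e1 q.symm n32.symm n12 n13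
    have k4 := no e1 e4 e3 p n14 n13.symm n34
    exact ⟨iff_of_false k1 ht, iff_of_true p.symm ht, iff_of_false k3 ht,
      iff_of_true q.symm ht, k2, k4⟩

/-! ### Probabilities -/

/-- open labels = random ones + wired layers (outside of `LamS` anything) -/
lemma Conf.of (hΛ : LamOK S h Λ) (hD : ∀ e ∈ LamS S h, e ∉ D)
    (hW : ∀ e ∈ LamS S h, (e ∈ W ↔ e ∈ W0 S h)) (ω : Finset (ℤ × ℤ)) :
    Conf S h ω Λ D (ω ∪ W) :=
  ⟨hΛ, hD, fun e he => by rw [mem_union, mem_union, hW e he]⟩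

section prob

variable {β : Type*} [DecidableEq β] (b : ℤ × ℤ → β)

/-- **Value at the fourth mark** in every coin model. -/
theorem value4 (hh : 4 ≤ h) (hΛ : LamOK S h Λ) (hD : ∀ e ∈ LamS S h, e ∉ D)
    (hW : ∀ e ∈ LamS S h, (e ∈ W ↔ e ∈ W0 S h)) (v1 v2 v3 : ℂ) :
    v1 * (PB (EE S h) b (fun ω => (SG Λ D (ω ∪ W)).Reachable (x4 S h) (x1 S h)) : ℝ) +
      v2 * (PB (EE S h) b (fun ω => (SG Λ D (ω ∪ W)).Reachable (x4 S h) (x2 S h)) : ℝ) +
      v3 * (PB (EE S h) b (fun ω => (SG Λ D (ω ∪ W)).Reachable (x4 S h) (x3 S h)) : ℝ) =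
    v1 * (PB (EE S h) b (fun ω => ¬ TT S h ω) : ℝ) +
      v3 * (1 - (PB (EE S h) b (fun ω => ¬ TT S h ω) : ℝ)) := by
  have h1 : PB (EE S h) b (fun ω => (SG Λ D (ω ∪ W)).Reachable (x4 S h) (x1 S h)) =
      PB (EE S h) b (fun ω => ¬ TT S h ω) :=
    PB_congr fun ω hω => ((Conf.of hΛ hD hW ω).reach_iff hh hω).2.1
  have h3 : PB (EE S h) b (fun ω => (SG Λ D (ω ∪ W)).Reachable (x4 S h) (x3 S h)) =
      1 - PB (EE S h) b (fun ω => ¬ TT S h ω) := by
    rw [PB_not, sub_sub_cancel]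
    exact PB_congr fun ω hω => ((Conf.of hΛ hD hW ω).reach_iff hh hω).1
  have h2 : PB (EE S h) b (fun ω => (SG Λ D (ω ∪ W)).Reachable (x4 S h) (x2 S h)) = 0 := by
    have : PB (EE S h) b (fun ω => (SG Λ D (ω ∪ W)).Reachable (x4 S h) (x2 S h)) =
        PB (EE S h) b (fun _ => ¬ True) :=
      PB_congr fun ω hω => iff_of_false ((Conf.of hΛ hD hW ω).reach_iff hh hω).2.2.2.2.1
        (not_not.2 trivial)
    rw [this, PB_not, PB_true, sub_self]
  rw [h1, h2, h3]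
  push_cast
  ring

/-- natural world: the value is `v1 q + v3 (1 - q)`, `q = qn S h` -/
theorem value4_nat (hh : 4 ≤ h) (hΛ : LamOK S h Λ) (hD : ∀ e ∈ LamS S h, e ∉ D)
    (hW : ∀ e ∈ LamS S h, (e ∈ W ↔ e ∈ W0 S h)) (v1 v2 v3 : ℂ) :
    v1 * (Pr (EE S h) (fun ω => (SG Λ D (ω ∪ W)).Reachable (x4 S h) (x1 S h)) : ℝ) +
      v2 * (Pr (EE S h) (fun ω => (SG Λ D (ω ∪ W)).Reachable (x4 S h) (x2 S h)) : ℝ) +
      v3 * (Pr (EE S h) (fun ω => (SG Λ D (ω ∪ W)).Reachable (x4 S h) (x3 S h)) : ℝ) =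
    v1 * (qn S h : ℝ) + v3 * (1 - (qn S h : ℝ)) := by
  have := value4 (b := id) hh hΛ hD hW v1 v2 v3
  simp only [PB_id] at this
  exact this

/-- **A solid block**: for a set `P` of labels the probability that `x4` is joined to `x3` if `P` is
open but not if `P` is closed is the probability that `P` is pivotal for `TT`. -/
theorem pivot4 (hh : 4 ≤ h) (hΛ : LamOK S h Λ) (hD : ∀ e ∈ LamS S h, e ∉ D)
    (hW : ∀ e ∈ LamS S h, (e ∈ W ↔ e ∈ W0 S h)) {P ω : Finset (ℤ × ℤ)} (hP : P ⊆ EE S h)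
    (hω : ω ⊆ EE S h) :
    ((SG Λ D ((ω ∪ P) ∪ W)).Reachable (x4 S h) (x3 S h) ∧
      (SG Λ D ((ω \ P) ∪ W)).Reachable (x4 S h) (x1 S h)) ↔
    TT S h (ω ∪ P) ∧ ¬ TT S h (ω \ P) := by
  rw [((Conf.of hΛ hD hW (ω ∪ P)).reach_iff hh (union_subset hω hP)).1,
    ((Conf.of hΛ hD hW (ω \ P)).reach_iff hh (sdiff_subset.trans hω)).2.1]

end prob

end Pool.Agent.H37.W
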