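import Mathlib
import Pool.Agent.H33.FM.MirEnv
import Pool.Agent.H5.C3.Gen

set_option autoImplicit false
open Finset

/-! # Rotation of a shape by 180 degrees

Cells `(i, j) ↦ (-i-1, -j-1)`, sides `(c, k) ↦ (rcell c, k + 2)` in the same order, labels and vertices
`v ↦ -v`. The probability `qn`, the cross ratio and `Gen` do not change, left corners become right
corners. So Cardy's formula for generic shapes whose fourth mark is a right convex corner implies
Cardy's formula for all generic shapes. -/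

namespace Pool.Agent.H37.W

open Pool.Agent.H75.Perc hiding WL CT hh ph
open Pool.Agent.H75.TwoArm Pool.Agent.H75.Four Pool.Agent.H69.Q1 Pool.Agent.Q1
open Pool.Agent.H5.Q1 (oc vx_oc ty_oc fi_oc oc_congr)
open Pool.Agent.Q1.M4 (Cell Good IsSide nextSide tail head PType Adj4 Conn4 head_eq_tail_next
  isSide_next dir_congr dir_add_four)
open Pool.Agent.H33.Q1 Pool.Agent.H21.FM
open Pool.Agent.H33.FM (dir_opp)

/-- rotation of cells -/
def rcell (c : Cell) : Cell := (-c.1 - 1, -c.2 - 1)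

@[simp] lemma rcell_rcell (c : Cell) : rcell (rcell c) = c := by
  unfold rcell; refine Prod.ext ?_ ?_ <;> simp

lemma rcell_inj {c d : Cell} (h : rcell c = rcell d) : c = d := by
  rw [← rcell_rcell c, h, rcell_rcell]

lemma mem_rcell {Q : Finset Cell} {c : Cell} : rcell c ∈ Q.image rcell ↔ c ∈ Q := by
  rw [mem_image]
  exact ⟨fun ⟨a, h1, h2⟩ => (rcell_inj h2) ▸ h1, fun h => ⟨c, h, rfl⟩⟩

lemma mem_rcell' {Q : Finset Cell} {c : Cell} : c ∈ Q.image rcell ↔ rcell c ∈ Q := by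
  have h := mem_rcell (Q := Q) (c := rcell c)
  rwa [rcell_rcell] at h

lemma rcell_add (c : Cell) (k : ℤ) : rcell (c + dir k) = rcell c + dir (k + 2) := by
  rw [dir_opp]; unfold rcell
  refine Prod.ext ?_ ?_ <;> simp only [Prod.fst_add, Prod.snd_add] <;> ring

lemma image_rcell (Q : Finset Cell) : (Q.image rcell).image rcell = Q := by
  rw [image_image]
  have : rcell ∘ rcell = id := by funext c; simp
  rw [this, image_id]

lemma adj4_rcell {c d : Cell} (h : Adj4 c d) : Adj4 (rcell c) (rcell d) := by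
  obtain ⟨k, rfl⟩ := h
  exact ⟨k + 2, rcell_add c k⟩

lemma conn_rcell {A : Set Cell} (h : Conn4 A) : Conn4 {c | rcell c ∈ A} := by
  intro c hc d hd
  have h1 := h _ hc _ hd
  have key : ∀ x, Relation.ReflTransGen (fun a b => Adj4 a b ∧ b ∈ A) (rcell c) x →
      Relation.ReflTransGen (fun a b => Adj4 a b ∧ b ∈ {c | rcell c ∈ A}) c (rcell x) := by
    intro x hx
    induction hx with
    | refl => rw [rcell_rcell]
    | tail _ hbc ih =>
      refine ih.tail ⟨adj4_rcell hbc.1, ?_⟩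
      simp only [Set.mem_ofPred_eq, rcell_rcell]
      exact hbc.2
  have h2 := key _ h1
  rwa [rcell_rcell] at h2

theorem good_rot {Q : Finset Cell} (h : Good Q) : Good (Q.image rcell) := by
  refine ⟨h.ne.image _, ?_, ?_, ?_, ?_⟩
  · have e : ((Q.image rcell : Finset Cell) : Set Cell) = {c | rcell c ∈ (Q : Set Cell)} := by
      ext c; simp only [mem_coe, Set.mem_ofPred_eq]; exact mem_rcell'
    rw [e]; exact conn_rcell h.conn
  · have e : ((Q.image rcell : Finset Cell) : Set Cell)ᶜ = {c | rcell c ∈ ((Q : Set Cell)ᶜ)} := by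
      ext c; simp only [Set.mem_compl_iff, mem_coe, Set.mem_ofPred_eq]; rw [mem_rcell']
    rw [e]; exact conn_rcell h.conn_compl
  · intro c h1 h2
    rw [mem_rcell'] at h1 h2 ⊢
    rw [mem_rcell']
    have e1 : rcell c = rcell (c + (1, 1)) + (1, 1) := by
      unfold rcell; refine Prod.ext ?_ ?_ <;> simp <;> ring
    rw [e1] at h1
    rcases h.diag1 _ h2 h1 with h3 | h3
    · right
      convert h3 using 1
      unfold rcell; refine Prod.ext ?_ ?_ <;> simp <;> ring
    · left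
      convert h3 using 1
      unfold rcell; refine Prod.ext ?_ ?_ <;> simp <;> ring
  · intro c h1 h2
    rw [mem_rcell'] at h1 h2 ⊢
    rw [mem_rcell']
    have e1 : rcell (c + (1, 0)) = rcell (c + (1, 1)) + (0, 1) := by
      unfold rcell; refine Prod.ext ?_ ?_ <;> simp <;> ring
    have e2 : rcell (c + (0, 1)) = rcell (c + (1, 1)) + (1, 0) := by
      unfold rcell; refine Prod.ext ?_ ?_ <;> simp <;> ring
    rw [e1] at h1
    rw [e2] at h2
    rcases h.diag2 _ h2 h1 with h3 | h3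
    · right
      exact h3
    · left
      convert h3 using 1
      unfold rcell; refine Prod.ext ?_ ?_ <;> simp <;> ring

/-- rotation of sides -/
def rside (s : Cell × ℤ) : Cell × ℤ := (rcell s.1, s.2 + 2)

variable {Q : Finset Cell}

lemma isSide_rside {s : Cell × ℤ} (hs : IsSide Q s) : IsSide (Q.image rcell) (rside s) := by
  refine ⟨mem_rcell.2 hs.1, ?_⟩
  unfold rside
  simp only
  have e : rcell s.1 + dir (s.2 + 2 - 1) = rcell (s.1 + dir (s.2 - 1)) := by
    rw [rcell_add]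
    congr 1
    exact dir_congr (by omega)
  rw [e, mem_rcell]
  exact hs.2

lemma isSide_of_image {s : Cell × ℤ} (hs : IsSide (Q.image rcell) s) : IsSide Q (rside s) := by
  have h1 := isSide_rside hs
  rwa [image_rcell] at h1

/-- the next side of the rotation -/
theorem next_rside (s : Cell × ℤ) : nextSide (Q.image rcell) (rside s) = rside (nextSide Q s) := by
  have e1 : (rside s).1 + dir (rside s).2 + dir ((rside s).2 - 1) =
      rcell (s.1 + dir s.2 + dir (s.2 - 1)) := by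
    unfold rside
    rw [rcell_add, rcell_add]
    congr 1
    exact dir_congr (by simp only; omega)
  have e2 : (rside s).1 + dir (rside s).2 = rcell (s.1 + dir s.2) := by
    unfold rside
    rw [rcell_add]
  unfold nextSide
  rw [e1, e2]
  simp only [mem_rcell]
  split_ifs
  · unfold rside; refine Prod.ext rfl ?_; simp only; ring
  · unfold rside; rfl
  · unfold rside; refine Prod.ext rfl ?_; simp only; ring

lemma iter_rside (s : Cell × ℤ) (n : ℕ) :
    (nextSide (Q.image rcell))^[n] (rside s) = rside ((nextSide Q)^[n] s) := by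
  induction n generalizing s with
  | zero => rfl
  | succ n ih => rw [Function.iterate_succ_apply, Function.iterate_succ_apply, next_rside, ih]

/-- the rotation of a polygon -/
noncomputable def prot (P : PType) : PType where
  Q := P.Q.image rcell
  good := good_rot P.good
  s0 := rside P.s0
  N := P.N
  m := P.m
  hm0 := P.hm0
  hmN := P.hmN
  side0 := isSide_rside P.side0
  period := by
    rw [iter_rside, P.period]
    unfold rside
    refine Prod.ext rfl ?_
    simp only; ring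
  all := by
    intro s hs
    obtain ⟨n, hn, e1, e2⟩ := P.all _ (isSide_of_image hs)
    refine ⟨n, hn, ?_, ?_⟩
    · rw [iter_rside]
      unfold rside at e1 ⊢
      simp only at e1 ⊢
      rw [e1, rcell_rcell]
    · rw [iter_rside]
      unfold rside at e2 ⊢
      simp only at e2 ⊢
      omega
  inj := by
    intro n hn n' hn' e1 e2
    rw [iter_rside, iter_rside] at e1 e2
    unfold rside at e1 e2
    simp only at e1 e2
    exact P.inj n hn n' hn' (rcell_inj e1) (by omega)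

lemma prot_side (P : PType) (n : ℕ) : (prot P).side n = rside (P.side n) := iter_rside P.s0 n

lemma tail_rside (s : Cell × ℤ) : tail (rside s) = -tail s := by
  unfold tail rside rcell
  simp only
  have h : s.2 % 4 = 0 ∨ s.2 % 4 = 1 ∨ s.2 % 4 = 2 ∨ s.2 % 4 = 3 := by omega
  rcases h with h | h | h | h
  · have h2 : (s.2 + 2) % 4 = 2 := by omega
    simp only [h, h2]
    refine Prod.ext ?_ ?_ <;> simp
  · have h2 : (s.2 + 2) % 4 = 3 := by omega
    simp only [h, h2]
    refine Prod.ext ?_ ?_ <;> simp <;> ring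
  · have h2 : (s.2 + 2) % 4 = 0 := by omega
    simp only [h, h2]
    refine Prod.ext ?_ ?_ <;> simp <;> ring
  · have h2 : (s.2 + 2) % 4 = 1 := by omega
    simp only [h, h2]
    refine Prod.ext ?_ ?_ <;> simp <;> ring

lemma prot_vert (P : PType) (n : ℕ) : (prot P).vert n = -P.vert n := by
  unfold PType.vert
  rw [prot_side, tail_rside]

/-- **The rotation of a shape.** -/
noncomputable def rotS (S : Shape) : Shape where
  P := prot S.P
  m2 := S.m2
  m3 := S.m3
  h02 := S.h02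
  h23 := S.h23
  h34 := S.h34
  cvx := by
    intro i hi
    have h1 := S.cvx i hi
    rw [prot_side, prot_side, h1]
    unfold rside
    refine Prod.ext rfl ?_
    simp only; ring

lemma rotS_k (S : Shape) (i : ℕ) : (rotS S).k i = S.k i + 2 := by
  unfold Shape.k
  show ((prot S.P).side i).2 = _
  rw [prot_side]; rfl

lemma gen_rot {Q : Finset Cell} (h : H5.C3.Gen Q) : H5.C3.Gen (Q.image rcell) := by
  intro a b y hab hx
  have e : ∀ x z : ℤ, ((x, z) : Cell) ∈ Q.image rcell ↔ (-x - 1, -z - 1) ∈ Q := fun x z => mem_rcell'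
  have h1 := h (-b) (-a) (-y) (by omega) (fun x h1 h2 => by
    obtain ⟨k1, k2⟩ := hx (-x - 1) (by omega) (by omega)
    rw [e] at k1 k2
    refine ⟨?_, ?_⟩
    · convert k2 using 2 <;> ring
    · convert k1 using 2 <;> ring)
  rw [e, e, e, e]
  have a1 : ((-b - 1, -y) : Cell) = (-b - 1, -(y - 1) - 1) := by congr 1; ring
  have a2 : ((-a, -y) : Cell) = (-(a - 1) - 1, -(y - 1) - 1) := by congr 1 <;> ring
  have a3 : ((-a, -y - 1) : Cell) = (-(a - 1) - 1, -y - 1) := by congr 1; ring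
  rw [a1, a2, a3] at h1
  rcases h1 with h1 | h1
  · exact Or.inr h1.symm
  · exact Or.inl h1.symm

/-! ### Labels -/

/-- rotation of tiles -/
def rtl (p : ℤ × ℤ) : ℤ × ℤ := (-p.1 - 1, -p.2 - 1)

lemma neg_lt (p : ℤ × ℤ) : -lt p = lt (rtl p) := by
  unfold lt rtl; refine Prod.ext ?_ ?_ <;> simp only [Prod.fst_neg, Prod.snd_neg] <;> ring

/-- image of a set of labels -/
def ng (A : Finset (ℤ × ℤ)) : Finset (ℤ × ℤ) := A.image fun e => -e

lemma mem_ng {A : Finset (ℤ × ℤ)} {e : ℤ × ℤ} : e ∈ ng A ↔ -e ∈ A := by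
  unfold ng
  rw [mem_image]
  exact ⟨fun ⟨a, h1, h2⟩ => by rw [← h2, neg_neg]; exact h1, fun h => ⟨-e, h, neg_neg e⟩⟩

lemma mem_ng_lt {A : Finset (ℤ × ℤ)} {p : ℤ × ℤ} : lt p ∈ ng A ↔ lt (rtl p) ∈ A := by
  rw [mem_ng, neg_lt]

lemma odd_ng {A : Finset (ℤ × ℤ)} (hA : ∀ e ∈ A, (e.1 + e.2) % 2 = 1) :
    ∀ e ∈ ng A, (e.1 + e.2) % 2 = 1 := by
  intro e he
  rw [mem_ng] at he
  have := hA _ he
  simp only [Prod.fst_neg, Prod.snd_neg] at this
  omega

lemma ct_rtl {n : ℤ} (hn : 0 < n) (p : ℤ × ℤ) : ct n (rtl p) = rcell (ct n p) := by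
  rw [ct_eq hn]
  have h := (ct_eq hn (p := p)).1 rfl
  obtain ⟨⟨h1, h2⟩, h3, h4⟩ := h
  unfold rtl rcell
  simp only
  have e1 : (-(ct n p).1 - 1) * n = -((ct n p).1 * n) - n := by ring
  have e2 : (-(ct n p).2 - 1) * n = -((ct n p).2 * n) - n := by ring
  rw [e1, e2]
  omega

lemma TL_rot {n : ℤ} (hn : 0 < n) : TL (Q.image rcell) n = ng (TL Q n) := by
  refine Pool.Agent.H33.FM.ext_lt (fun e he => ((mem_TL hn).1 he).1)
    (odd_ng fun e he => ((mem_TL hn).1 he).1) ?_
  intro p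
  rw [mem_ng_lt, mem_TL hn, mem_TL hn, tt_lt, tt_lt, mem_rcell', ct_rtl hn]
  exact ⟨fun h => ⟨lt_odd _, h.2⟩, fun h => ⟨lt_odd _, h.2⟩⟩

lemma rtl_sub (p : ℤ × ℤ) (k : ℤ) : rtl (p - dir k) = rtl p - dir (k + 2) := by
  rw [dir_opp]; unfold rtl
  refine Prod.ext ?_ ?_ <;> simp only [Prod.fst_sub, Prod.snd_sub] <;> ring

lemma LY_rot {n : ℤ} (hn : 0 < n) (s : Cell × ℤ) : LY n (rside s) = ng (LY n s) := by
  refine Pool.Agent.H33.FM.ext_lt (fun e he => ((mem_LY hn).1 he).1)
    (odd_ng fun e he => ((mem_LY hn).1 he).1) ?_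
  intro p
  rw [mem_ng_lt, mem_LY hn, mem_LY hn, tt_lt, tt_lt]
  have e0 : (rside s).1 + dir ((rside s).2 - 1) = rcell (s.1 + dir (s.2 - 1)) := by
    unfold rside; simp only
    rw [rcell_add]; congr 1; exact dir_congr (by omega)
  have e1 : rtl (p - dir ((rside s).2 - 1)) = rtl p - dir (s.2 - 1) := by
    rw [rtl_sub]; unfold rside; simp only
    congr 1; exact dir_congr (by omega)
  rw [e0]
  have a1 : ct n p = rcell (s.1 + dir (s.2 - 1)) ↔ ct n (rtl p) = s.1 + dir (s.2 - 1) := by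
    rw [ct_rtl hn]
    constructor
    · intro h; rw [h, rcell_rcell]
    · intro h; rw [← h, rcell_rcell]
  have a2 : ct n (p - dir ((rside s).2 - 1)) = (rside s).1 ↔ ct n (rtl p - dir (s.2 - 1)) = s.1 := by
    rw [← e1, ct_rtl hn]
    unfold rside
    simp only
    constructor
    · intro h; rw [h, rcell_rcell]
    · intro h; rw [← h, rcell_rcell]
  rw [a1, a2]
  exact ⟨fun h => ⟨lt_odd _, h.2⟩, fun h => ⟨lt_odd _, h.2⟩⟩

/-- rotation of the vertices of a side -/
lemma wv_rside (h : ℕ) (s : Cell × ℤ) (j : ℕ) : wv h (rside s) j = -wv h s j := by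
  unfold wv
  rw [tail_rside]
  have e1 : (rside s).2 = s.2 + 2 := rfl
  have e2 : dir (s.2 + 2 + 1) = dir (s.2 + 1 + 2) := dir_congr (by omega)
  rw [e1, e2, dir_opp, dir_opp]
  refine Prod.ext ?_ ?_ <;>
    simp only [Prod.fst_neg, Prod.snd_neg, Prod.fst_add, Prod.snd_add] <;> ring

lemma isUnit4_neg_iff {u : ℤ × ℤ} : IsUnit4 (-u) ↔ IsUnit4 u :=
  ⟨fun h => by simpa using isUnit4_neg h, isUnit4_neg⟩

lemma ad_ng {A : Finset (ℤ × ℤ)} {u v : ℤ × ℤ} (h : Ad A u v) : Ad (ng A) (-u) (-v) := by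
  refine ⟨?_, ?_⟩
  · have := isUnit4_neg h.1
    convert this using 1
    ring
  · rw [mem_ng]
    convert h.2 using 1
    ring

lemma co_ng {A : Finset (ℤ × ℤ)} {u v : ℤ × ℤ} (h : Co A u v) : Co (ng A) (-u) (-v) := by
  induction h with
  | refl => exact Co.refl _ _
  | tail _ h ih => exact ih.trans (Relation.ReflTransGen.single (ad_ng h))

lemma ng_ng (A : Finset (ℤ × ℤ)) : ng (ng A) = A := by
  ext e; rw [mem_ng, mem_ng, neg_neg]

lemma co_ng_iff {A : Finset (ℤ × ℤ)} {u v : ℤ × ℤ} : Co (ng A) (-u) (-v) ↔ Co A u v :=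
  ⟨fun h => by have := co_ng h; rwa [ng_ng, neg_neg, neg_neg] at this, co_ng⟩

lemma ng_union (A B : Finset (ℤ × ℤ)) : ng (A ∪ B) = ng A ∪ ng B := by
  unfold ng; exact image_union _ _

variable {S : Shape} {h : ℕ}

lemma EE_rot (hh : 1 ≤ h) : EE (rotS S) h = ng (EE S h) := TL_rot (by omega)

lemma W0_rot (hh : 1 ≤ h) : W0 (rotS S) h = ng (W0 S h) := by
  have hN : (0 : ℤ) < 2 * h := by omega
  ext e
  rw [mem_ng]
  unfold W0
  rw [mem_biUnion, mem_biUnion]
  refine exists_congr fun i => and_congr Iff.rfl ?_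
  show e ∈ LY (2 * h) ((prot S.P).side i) ↔ _
  rw [prot_side, LY_rot hN, mem_ng]

lemma TT_rot (hh : 1 ≤ h) {ω : Finset (ℤ × ℤ)} : TT (rotS S) h (ng ω) ↔ TT S h ω := by
  unfold TT
  have e1 : v3 (rotS S) h = -v3 S h := by
    unfold v3
    show wv h ((prot S.P).side S.m3) 0 = _
    rw [prot_side, wv_rside]
  have e2 : v1 (rotS S) h = -v1 S h := by
    unfold v1
    show wv h ((prot S.P).side 0) 0 = _
    rw [prot_side, wv_rside]
  rw [e1, e2, W0_rot hh, ← ng_union, co_ng_iff]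

/-- **The rotation does not change the crossing probability.** -/
theorem qn_rot (S : Shape) {h : ℕ} (hh : 1 ≤ h) : qn (rotS S) h = qn S h := by
  unfold qn
  have e : ∀ A : Finset (ℤ × ℤ), ng A = A.map ⟨fun e => -e, neg_injective⟩ := fun A => by
    rw [map_eq_image]; rfl
  rw [EE_rot hh, e, Pr_map]
  refine Pr_congr fun ω _ => ?_
  rw [← e]
  exact not_congr (TT_rot hh)

/-! ### The chart and the cross ratio -/

open Pool.Agent.Q1.M4 (rect Reg Om pt)
open Pool.Agent.H14.FM (ic)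
open Pool.Agent.H19.RH (Cht lam crv)
open Pool.Agent.H13.Q1.Four (cardy)

lemma mem_rect_rot {c : Cell} {z : ℂ} : z ∈ rect ic ic (rcell c) ↔ -z ∈ rect ic ic c := by
  unfold rect rcell ic
  simp only [Set.mem_ofPred_eq, Complex.neg_re, Complex.neg_im]
  push_cast
  constructor <;> rintro ⟨⟨h1, h2⟩, h3, h4⟩ <;> refine ⟨⟨?_, ?_⟩, ?_, ?_⟩ <;> linarith

lemma Reg_rot (Q : Finset Cell) : Reg (Q.image rcell) ic ic = -Reg Q ic ic := by
  ext z
  rw [Set.mem_neg]
  unfold Reg
  simp only [Set.mem_ofPred_eq]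
  constructor
  · rintro ⟨c, hc, hz⟩
    refine ⟨rcell c, mem_rcell'.1 hc, ?_⟩
    rw [← mem_rect_rot, rcell_rcell]
    exact hz
  · rintro ⟨c, hc, hz⟩
    exact ⟨rcell c, mem_rcell.2 hc, mem_rect_rot.2 hz⟩

lemma Om_rot (Q : Finset Cell) : Om (Q.image rcell) ic ic = -Om Q ic ic := by
  unfold Om
  rw [Reg_rot]
  have h := (Homeomorph.neg ℂ).preimage_interior (Reg Q ic ic)
  exact h.symm

lemma pt_rot (p : ℤ × ℤ) : pt ic ic (-p) = -pt ic ic p := by
  unfold pt ic
  apply Complex.ext <;> simp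

lemma sidePt_rot (P : PType) (n : ℕ) (t : ℝ) :
    (prot P).sidePt ic ic n t = -P.sidePt ic ic n t := by
  unfold PType.sidePt
  rw [prot_vert, prot_vert, pt_rot, pt_rot]
  ring

lemma cht_rot {P : PType} {φ : ℂ → ℂ} (C : Cht P ic ic φ) : Cht (prot P) ic ic (fun z => -φ z) := by
  refine ⟨C.hx, C.hy, ?_⟩
  have h := C.half
  have e1 : Om (prot P).Q ic ic = -Om P.Q ic ic := Om_rot P.Q
  have e2 : pt ic ic ((prot P).vert 0) = -pt ic ic (P.vert 0) := by rw [prot_vert, pt_rot]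
  have e3 : (prot P).sidePt ic ic ((prot P).N - 1) (1 / 2) = -P.sidePt ic ic (P.N - 1) (1 / 2) :=
    sidePt_rot P _ _
  rw [e1, e2, e3]
  refine ⟨h.cont.neg, ?_, h.diff.neg, ?_, ?_, h.lim.neg, ?_⟩
  · intro a ha b hb hab
    exact h.inj ha hb (neg_injective hab)
  · rw [← h.image]
    ext z
    simp only [Set.mem_image, Set.mem_neg]
    constructor
    · rintro ⟨a, ha, rfl⟩; exact ⟨a, ha, by simp⟩
    · rintro ⟨a, ha, h2⟩; exact ⟨a, ha, by rw [h2, neg_neg]⟩
  · rw [h.zero]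
  · have e4 : closure (-Om P.Q ic ic) = -closure (Om P.Q ic ic) :=
      ((Homeomorph.neg ℂ).preimage_closure (Om P.Q ic ic)).symm
    rw [e4]
    have h5 := h.closure
    ext z
    have h6 := Set.ext_iff.1 h5 (-z)
    simp only [Set.mem_image, Set.mem_sdiff, Set.mem_singleton_iff, Set.mem_neg] at h6 ⊢
    constructor
    · rintro ⟨a, ha, rfl⟩
      have := h6.1 ⟨a, ha, by simp⟩
      exact ⟨this.1, fun h => this.2 (by rw [h, neg_neg])⟩
    · rintro ⟨h7, h8⟩
      obtain ⟨a, ha, h9⟩ := h6.2 ⟨h7, fun h => h8 (by rw [← h]; ring)⟩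
      exact ⟨a, ha, by rw [h9, neg_neg]⟩

lemma choose_congr {p q : ℝ → Prop} (h : p = q) [Decidable (∃ t, p t)] [Decidable (∃ t, q t)] :
    (if h : ∃ t, p t then h.choose else (0 : ℝ)) = if h : ∃ t, q t then h.choose else 0 := by
  subst h
  by_cases hp : ∃ t, p t
  · rw [dif_pos hp, dif_pos hp]
  · rw [dif_neg hp, dif_neg hp]

lemma cc_rot (P : PType) (φ : ℂ → ℂ) (n : ℕ) :
    H19.RH.cc (prot P) ic ic (fun z => -φ z) n = H19.RH.cc P ic ic φ n := by
  unfold H19.RH.cc H19.RH.cc.sg' Cht.sg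
  have e : ∀ u : ℝ, crv (prot P) ic ic u = -crv P ic ic u := fun u => sidePt_rot P _ _
  have hp : (fun t : ℝ => (fun z => -φ z) (t : ℂ) = crv (prot P) ic ic (n : ℝ)) =
      fun t : ℝ => φ t = crv P ic ic (n : ℝ) := by
    funext t
    rw [e]
    exact propext neg_inj
  exact @choose_congr _ _ hp (Classical.propDecidable _) (Classical.propDecidable _)

lemma lam_rot (P : PType) (m2 m3 m4 : ℕ) (φ : ℂ → ℂ) :
    lam (prot P) ic ic m2 m3 m4 (fun z => -φ z) = lam P ic ic m2 m3 m4 φ := by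
  unfold lam
  simp only [cc_rot]
  rfl

/-- Cardy's formula for the generic shapes whose last mark is a right convex corner. -/
def ShGR : Prop := ∀ S : Shape, H5.C3.Gen S.P.Q → (S.k S.m4 % 4 = 1 ∨ S.k S.m4 % 4 = 2) →
  ∀ φ : ℂ → ℂ, Cht S.P ic ic φ → ∀ ε > 0, ∃ M : ℕ, 0 < M ∧ ∀ᶠ h : ℕ in Filter.atTop,
    |qn S (M * h) - cardy (lam S.P ic ic S.m2 S.m3 S.m4 φ)| ≤ ε

/-- **Right corners are enough.** -/
theorem shapeG_of_right (H : ShGR) : H5.C3.StShapeG := by
  intro S hG φ hφ ε hε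
  by_cases hr : S.k S.m4 % 4 = 1 ∨ S.k S.m4 % 4 = 2
  · exact H S hG hr φ hφ ε hε
  · have hk : (rotS S).k (rotS S).m4 = S.k S.m4 + 2 := rotS_k S _
    obtain ⟨M, hM, h1⟩ := H (rotS S) (gen_rot hG) (by rw [hk]; omega) _ (cht_rot hφ) ε hε
    refine ⟨M, hM, ?_⟩
    filter_upwards [h1, Filter.eventually_ge_atTop 1] with h h2 h3
    rw [qn_rot S (Nat.mul_pos hM h3)] at h2
    have e := lam_rot S.P S.m2 S.m3 S.m4 φ
    have e' : lam (rotS S).P ic ic (rotS S).m2 (rotS S).m3 (rotS S).m4 (fun z => -φ z) =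
      lam S.P ic ic S.m2 S.m3 S.m4 φ := e
    rwa [e'] at h2

end Pool.Agent.H37.W
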