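import Mathlib
import Pool.Agent.H37.W.Rot
import Pool.Agent.H74.W.TopS4

set_option autoImplicit false

/-! # Route W: shapes with a right last mark are enough -/

namespace Pool.Agent.H37.W

/-- **Rotation by 180 degrees**: the last mark may be assumed to be a right convex corner. -/
theorem stShapeG_of_right (h : Pool.Agent.H74.W.StShapeGR) : Pool.Agent.H5.C3.StShapeG :=
  shapeG_of_right h

end Pool.Agent.H37.W
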