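import Mathlib
import Pool.Agent.H13.W.Solid
import Pool.Agent.H21.W.TileSG

set_option autoImplicit false
open Finset

/-! # The columns of a deleted row between two solid rows

Row `Y` deleted, the tile `(x, Y - 1)` below has the colour `p x`, the tile `(x, Y + 1)` above the colour
`!p x`. The side `eS (lt (x, Y))` goes west on both sides of the deleted row if `ladt (p x) x Y = true`, east
otherwise. If the next column has the same colour, the strand is a loop of six sides (`DRow.closed`). -/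

namespace Pool.Agent.H37.W

open Pool.Agent.H75.Perc Pool.Agent.H75.TwoArm Pool.Agent.H99.W Pool.Agent.H13.W
open Pool.Agent.H47.W hiding pb
open Pool.Agent.H13.W.Sol
open Pool.Agent.H33.Q1 (lt)
open Pool.Agent.H21.W (ladt ladt_true)

variable {Λ D : Set (ℤ × ℤ)} {w : Finset (ℤ × ℤ)} {Y x1 L : ℤ} {p : ℤ → Bool}

/-- the row `Y` is deleted left of `x1`; `L` : first column of tiles -/
structure DRow (Λ D : Set (ℤ × ℤ)) (w : Finset (ℤ × ℤ)) (Y L x1 : ℤ) (p : ℤ → Bool) : Prop where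
  dl : ∀ x, L ≤ x → x < x1 → lt (x, Y) ∈ D
  lo : ∀ x, L ≤ x → x < x1 → lt (x, Y - 1) ∉ D ∧ (lt (x, Y - 1) ∈ w ↔ p x = true)
  up : ∀ x, L ≤ x → x < x1 → lt (x, Y + 1) ∉ D ∧ (lt (x, Y + 1) ∈ w ↔ p x = false)
  out : ∀ x y, x < L → |y - Y| ≤ 1 → lt (x, y) ∉ Λ

/-- the steps of a tile -/
lemma tj_unique {e c d d' : ℤ × ℤ} (h : TJ D w e c d) (h' : TJ D w e c d') : d = d' := h.unique h'

/-- the neighbours of a horizontal side -/
lemma adj_hz {x y : ℤ} {d : ℤ × ℤ} (h : (SG Λ D w).Adj (hz x y) d) :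
    (vt x y ∈ Λ ∧ TJ D w (vt x y) (hz x y) d) ∨ (vt x (y - 1) ∈ Λ ∧ TJ D w (vt x (y - 1)) (hz x y) d) := by
  obtain ⟨e, he, h⟩ := h
  rcases h.label with l | l <;> rcases tiles_hz x y with ⟨a, b⟩ | ⟨a, b⟩
  · rw [a] at l; subst l; exact Or.inl ⟨he, h⟩
  · rw [a] at l; subst l; exact Or.inr ⟨he, h⟩
  · rw [b] at l; subst l; exact Or.inr ⟨he, h⟩
  · rw [b] at l; subst l; exact Or.inl ⟨he, h⟩

/-- the neighbours of a vertical side -/
lemma adj_vt {x y : ℤ} {d : ℤ × ℤ} (h : (SG Λ D w).Adj (vt x y) d) :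
    (vt x y ∈ Λ ∧ TJ D w (vt x y) (vt x y) d) ∨ (vt (x - 1) y ∈ Λ ∧ TJ D w (vt (x - 1) y) (vt x y) d) := by
  obtain ⟨e, he, h⟩ := h
  rcases h.label with l | l <;> rcases tiles_vt x y with ⟨a, b⟩ | ⟨a, b⟩
  · rw [a] at l; subst l; exact Or.inl ⟨he, h⟩
  · rw [a] at l; subst l; exact Or.inr ⟨he, h⟩
  · rw [b] at l; subst l; exact Or.inr ⟨he, h⟩
  · rw [b] at l; subst l; exact Or.inl ⟨he, h⟩

lemma tj_del {x y : ℤ} (h : vt x y ∈ D) : TJ D w (vt x y) (hz x y) (hz x (y + 1)) := by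
  have := TJ_del (w := w) h (vt_odd x y)
  rwa [eS_vt, eN_vt] at this

/-- goes west -/
lemma ladt_pb {q : Bool} {x : ℤ} : ladt q x Y = true ↔ (x + Y) % 2 = pb q := by
  rw [ladt_true]
  cases q
  · simp only [pb, Bool.false_eq_true, if_false, false_iff]; omega
  · simp [pb]

lemma pb_not (q : Bool) : pb (!q) = 1 - pb q := by cases q <;> simp [pb]

/-- **The loop of two columns of the same colour.** -/
theorem DRow.loop (H : DRow Λ D w Y L x1 p) {x : ℤ} (hL : L < x) (hx : x < x1) (hp : p (x - 1) = p x)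
    (hw : ladt (p x) x Y = true) : ∃ K : Set (ℤ × ℤ), hz x Y ∈ K ∧ hz (x - 1) Y ∈ K ∧
      (∀ c ∈ K, ∀ d, (SG Λ D w).Adj c d → d ∈ K) ∧
      ∀ c ∈ K, ∃ x' y', |y' - Y| ≤ 1 ∧ x' < x1 ∧ Sd (lt (x', y')) c := by
  have hpar := ladt_pb.1 hw
  have c1 := pb_cases (p x)
  obtain ⟨l1, l2⟩ := H.lo x hL.le hx
  obtain ⟨u1, u2⟩ := H.up x hL.le hx
  obtain ⟨l1', l2'⟩ := H.lo (x - 1) (by omega) (by omega)
  obtain ⟨u1', u2'⟩ := H.up (x - 1) (by omega) (by omega)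
  have d1 := H.dl x hL.le hx
  have d2 := H.dl (x - 1) (by omega) (by omega)
  rw [hp] at l2' u2'
  rw [← vt_eq_lt] at l1 l2 u1 u2 l1' l2' u1' u2' d1 d2
  have n1 := pb_not (p x)
  have e0 : x - 1 + 1 = x := by ring
  have e1 : Y - 1 + 1 = Y := by ring
  have u2n : vt x (Y + 1) ∈ w ↔ (!p x) = true := by rw [u2]; cases p x <;> simp
  have u2n' : vt (x - 1) (Y + 1) ∈ w ↔ (!p x) = true := by rw [u2']; cases p x <;> simp
  -- the arcs
  have a1 := arcWN (w := w) l1 l2 (by omega)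
  have a2 := arcWS (w := w) u1 u2n (by omega)
  have a3 := arcEN (w := w) l1' l2' (by omega)
  have a4 := arcES (w := w) u1' u2n' (by omega)
  rw [e1] at a1 a3
  rw [e0] at a3 a4
  have b1 := tj_del (w := w) d1
  have b2 := tj_del (w := w) d2
  refine ⟨{c | c = hz x Y ∨ c = hz x (Y + 1) ∨ c = hz (x - 1) Y ∨ c = hz (x - 1) (Y + 1) ∨
    c = vt x (Y - 1) ∨ c = vt x (Y + 1)}, Or.inl rfl, Or.inr (Or.inr (Or.inl rfl)), ?_, ?_⟩
  · rintro c (rfl | rfl | rfl | rfl | rfl | rfl) d h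
    · rcases adj_hz h with ⟨-, h⟩ | ⟨-, h⟩
      · rw [tj_unique h b1]; simp
      · rw [tj_unique h a1.symm]; simp
    · rcases adj_hz h with ⟨-, h⟩ | ⟨-, h⟩
      · rw [tj_unique h a2.symm]; simp
      · rw [add_sub_cancel_right] at h
        rw [tj_unique h b1.symm]; simp
    · rcases adj_hz h with ⟨-, h⟩ | ⟨-, h⟩
      · rw [tj_unique h b2]; simp
      · rw [tj_unique h a3.symm]; simp
    · rcases adj_hz h with ⟨-, h⟩ | ⟨-, h⟩
      · rw [tj_unique h a4.symm]; simp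
      · rw [add_sub_cancel_right] at h
        rw [tj_unique h b2.symm]; simp
    · rcases adj_vt h with ⟨-, h⟩ | ⟨-, h⟩
      · rw [tj_unique h a1]; simp
      · rw [tj_unique h a3]; simp
    · rcases adj_vt h with ⟨-, h⟩ | ⟨-, h⟩
      · rw [tj_unique h a2]; simp
      · rw [tj_unique h a4]; simp
  · have s0 : |Y - Y| ≤ 1 := by rw [sub_self, abs_zero]; norm_num
    have s1 : |Y - 1 - Y| ≤ 1 := by rw [abs_le]; constructor <;> linarith
    have s2 : |Y + 1 - Y| ≤ 1 := by rw [abs_le]; constructor <;> linarith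
    rintro c (rfl | rfl | rfl | rfl | rfl | rfl)
    · exact ⟨x, Y, s0, hx, Or.inr (Or.inr (Or.inl (by rw [← vt_eq_lt, eS_vt])))⟩
    · exact ⟨x, Y, s0, hx, Or.inr (Or.inr (Or.inr (by rw [← vt_eq_lt, eN_vt])))⟩
    · exact ⟨x - 1, Y, s0, by omega, Or.inr (Or.inr (Or.inl (by rw [← vt_eq_lt, eS_vt])))⟩
    · exact ⟨x - 1, Y, s0, by omega, Or.inr (Or.inr (Or.inr (by rw [← vt_eq_lt, eN_vt])))⟩
    · exact ⟨x, Y - 1, s1, hx, Or.inl (by rw [← vt_eq_lt, eW_vt])⟩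
    · exact ⟨x, Y + 1, s2, hx, Or.inl (by rw [← vt_eq_lt, eW_vt])⟩

/-- the first column, if it goes west -/
theorem DRow.first (H : DRow Λ D w Y L x1 p) (hx : L < x1) (hw : ladt (p L) L Y = true) :
    ∃ K : Set (ℤ × ℤ), hz L Y ∈ K ∧ (∀ c ∈ K, ∀ d, (SG Λ D w).Adj c d → d ∈ K) ∧
      ∀ c ∈ K, ∃ x' y', |y' - Y| ≤ 1 ∧ x' < x1 ∧ Sd (lt (x', y')) c := by
  have hpar := ladt_pb.1 hw
  have c1 := pb_cases (p L)
  obtain ⟨l1, l2⟩ := H.lo L le_rfl hx
  obtain ⟨u1, u2⟩ := H.up L le_rfl hx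
  have d1 := H.dl L le_rfl hx
  rw [← vt_eq_lt] at l1 l2 u1 u2 d1
  have n1 := pb_not (p L)
  have e1 : Y - 1 + 1 = Y := by ring
  have u2n : vt L (Y + 1) ∈ w ↔ (!p L) = true := by rw [u2]; cases p L <;> simp
  have s0 : |Y - Y| ≤ 1 := by rw [sub_self, abs_zero]; norm_num
  have s1 : |Y - 1 - Y| ≤ 1 := by rw [abs_le]; constructor <;> linarith
  have s2 : |Y + 1 - Y| ≤ 1 := by rw [abs_le]; constructor <;> linarith
  have a1 := arcWN (w := w) l1 l2 (by omega)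
  have a2 := arcWS (w := w) u1 u2n (by omega)
  rw [e1] at a1
  have b1 := tj_del (w := w) d1
  refine ⟨{c | c = hz L Y ∨ c = hz L (Y + 1) ∨ c = vt L (Y - 1) ∨ c = vt L (Y + 1)}, Or.inl rfl, ?_, ?_⟩
  · rintro c (rfl | rfl | rfl | rfl) d h
    · rcases adj_hz h with ⟨-, h⟩ | ⟨-, h⟩
      · rw [tj_unique h b1]; simp
      · rw [tj_unique h a1.symm]; simp
    · rcases adj_hz h with ⟨-, h⟩ | ⟨-, h⟩
      · rw [tj_unique h a2.symm]; simp
      · rw [add_sub_cancel_right] at h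
        rw [tj_unique h b1.symm]; simp
    · rcases adj_vt h with ⟨-, h⟩ | ⟨h0, -⟩
      · rw [tj_unique h a1]; simp
      · exact absurd h0 (H.out _ _ (by omega) s1)
    · rcases adj_vt h with ⟨-, h⟩ | ⟨h0, -⟩
      · rw [tj_unique h a2]; simp
      · exact absurd h0 (H.out _ _ (by omega) s2)
  · rintro c (rfl | rfl | rfl | rfl)
    · exact ⟨L, Y, s0, hx, Or.inr (Or.inr (Or.inl (by rw [← vt_eq_lt, eS_vt])))⟩
    · exact ⟨L, Y, s0, hx, Or.inr (Or.inr (Or.inr (by rw [← vt_eq_lt, eN_vt])))⟩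
    · exact ⟨L, Y - 1, s1, hx, Or.inl (by rw [← vt_eq_lt, eW_vt])⟩
    · exact ⟨L, Y + 1, s2, hx, Or.inl (by rw [← vt_eq_lt, eW_vt])⟩

/-- the columns without tiles -/
theorem DRow.outer (H : DRow Λ D w Y L x1 p) {x : ℤ} (hx : x < L) (hx1 : x < x1) :
    ∃ K : Set (ℤ × ℤ), hz x Y ∈ K ∧ (∀ c ∈ K, ∀ d, (SG Λ D w).Adj c d → d ∈ K) ∧
      ∀ c ∈ K, ∃ x' y', |y' - Y| ≤ 1 ∧ x' < x1 ∧ Sd (lt (x', y')) c := by
  have s0 : |Y - Y| ≤ 1 := by rw [sub_self, abs_zero]; norm_num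
  have s1 : |Y - 1 - Y| ≤ 1 := by rw [abs_le]; constructor <;> linarith
  refine ⟨{hz x Y}, rfl, ?_, ?_⟩
  · rintro c rfl d h
    rcases adj_hz h with ⟨h0, -⟩ | ⟨h0, -⟩
    · exact absurd h0 (H.out _ _ hx s0)
    · exact absurd h0 (H.out _ _ hx s1)
  · rintro c rfl
    exact ⟨x, Y, s0, hx1, Or.inr (Or.inr (Or.inl (by rw [← vt_eq_lt, eS_vt])))⟩

/-- **The columns of the deleted row.** -/
theorem DRow.closed (H : DRow Λ D w Y L x1 p) {x : ℤ} (hx : x < x1)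
    (h1 : L < x → ladt (p x) x Y = true → p (x - 1) = p x)
    (h2 : L ≤ x → ladt (p x) x Y = false → x + 1 < x1 ∧ p (x + 1) = p x) :
    ∃ K : Set (ℤ × ℤ), eS (lt (x, Y)) ∈ K ∧ (∀ c ∈ K, ∀ d, (SG Λ D w).Adj c d → d ∈ K) ∧
      ∀ c ∈ K, ∃ x' y', |y' - Y| ≤ 1 ∧ x' < x1 ∧ Sd (lt (x', y')) c := by
  have e : eS (lt (x, Y)) = hz x Y := by rw [← vt_eq_lt, eS_vt]
  rw [e]
  rcases lt_trichotomy x L with hL | rfl | hL
  · exact H.outer hL hx
  · cases h : ladt (p x) x Y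
    · obtain ⟨h3, h4⟩ := h2 le_rfl h
      have h5 : ladt (p (x + 1)) (x + 1) Y = true := by
        rw [h4, ladt_pb]
        have h6 : ¬ ladt (p x) x Y = true := by rw [h]; simp
        rw [ladt_pb] at h6
        have := pb_cases (p x)
        omega
      obtain ⟨K, -, k2, k3, k4⟩ := H.loop (x := x + 1) (by omega) h3 (by rw [add_sub_cancel_right, h4]) h5
      rw [add_sub_cancel_right] at k2
      exact ⟨K, k2, k3, k4⟩
    · exact H.first hx h
  · cases h : ladt (p x) x Y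
    · obtain ⟨h3, h4⟩ := h2 hL.le h
      have h5 : ladt (p (x + 1)) (x + 1) Y = true := by
        rw [h4, ladt_pb]
        have h6 : ¬ ladt (p x) x Y = true := by rw [h]; simp
        rw [ladt_pb] at h6
        have := pb_cases (p x)
        omega
      obtain ⟨K, -, k2, k3, k4⟩ := H.loop (x := x + 1) (by omega) h3 (by rw [add_sub_cancel_right, h4]) h5
      rw [add_sub_cancel_right] at k2
      exact ⟨K, k2, k3, k4⟩
    · obtain ⟨K, k1, -, k3, k4⟩ := H.loop hL hx (h1 hL h) h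
      exact ⟨K, k1, k3, k4⟩

end Pool.Agent.H37.W
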