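import Mathlib
import Pool.Agent.H37.W.JColA
import Pool.Agent.H21.W.JInst
import Pool.Agent.H61.W.JNam

set_option autoImplicit false
open Finset

/-! # The columns of the deleted row inside the slit, world `GY`

`dRow` : the deleted row `Yr s` left of the mark `x1` is a `DRow` (`JColA`) with the lower colours `pY`.
`col_closed` (D2') : the side `eS (lt (x, Yr s))` of every column `x < x1` which is not the column `jcol i` of
an active gap line `i ≥ k` and not the last column in the case of the second parity lies in a small closed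
component. -/

namespace Pool.Agent.H37.W

open Pool.Agent.H75.Perc Pool.Agent.H13.W
open Pool.Agent.H33.Q1 hiding cf
open Pool.Agent.H6.W Pool.Agent.H50.W Pool.Agent.H58.W Pool.Agent.H61.W Pool.Agent.H21.W
open Pool.Agent.H13.W.Sol

variable {b : JBox} {δ σ : ℝ} {h : ℕ} {o : Bool} {cl : Fin (nP b) → Bool} {s : Bool} {k : ℕ}
  {M : Finset (Bool × ℕ)} {x y x0 r x1 : ℤ} {ω : Finset (ℤ × ℤ)} {w : Bool}

/-! ### Index of a plate -/

/-- index of the plate of the column `x` (`N` : width of a plate) -/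
def pidx (N x : ℤ) : ℕ := ((-x - 1) / N).toNat

lemma pidx_iff {N x : ℤ} (hN : 0 < N) (hx : x < 0) {i : ℕ} :
    pidx N x = i ↔ -((i + 1) * N) ≤ x ∧ x < -(i * N) := by
  have h0 : 0 ≤ (-x - 1) / N := Int.ediv_nonneg (by omega) hN.le
  unfold pidx
  constructor
  · intro h
    have h1 : (-x - 1) / N = i := by omega
    have h3 := Int.ediv_mul_le (-x - 1) hN.ne'
    have h4 := Int.lt_ediv_add_one_mul_self (-x - 1) hN
    rw [h1] at h3 h4
    constructor <;> linarith
  · rintro ⟨h1, h2⟩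
    have h3 : (-x - 1) / N = i := by
      apply le_antisymm
      · have := Int.ediv_lt_of_lt_mul hN (show -x - 1 < (i + 1) * N by linarith)
        omega
      · exact Int.le_ediv_of_mul_le hN (by linarith)
    omega

/-- the index changes at the gap lines -/
lemma pidx_step {N x : ℤ} (hN : 0 < N) (hx : x < 0) (h : pidx N (x - 1) ≠ pidx N x) :
    x = -((pidx N x + 1) * N) ∧ pidx N (x - 1) = pidx N x + 1 := by
  obtain ⟨h1, h2⟩ := (pidx_iff hN hx).1 rfl
  obtain ⟨h3, h4⟩ := (pidx_iff hN (show x - 1 < 0 by omega)).1 rfl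
  have h5 : x = -((pidx N x + 1) * N) := by
    by_contra h6
    apply h
    rw [pidx_iff hN (by omega)]
    constructor
    · have : -(((pidx N x : ℤ) + 1) * N) < x := lt_of_le_of_ne h1 (Ne.symm h6)
      omega
    · omega
  refine ⟨h5, ?_⟩
  rw [pidx_iff hN (by omega)]
  push_cast
  constructor
  · nlinarith
  · linarith

/-! ### The row -/

/-- lower colour of the column `x` -/
def pY (b : JBox) (h : ℕ) (o : Bool) (cl : Fin (nP b) → Bool) (s : Bool) (k : ℕ) (l : ℕ → Bool) (x : ℤ) :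
    Bool := cf b (cY b o cl s k false) l (pidx (b.M * (2 * h)) x)

/-- the column of the gap line `i` -/
def jcol (b : JBox) (h : ℕ) (o : Bool) (cl : Fin (nP b) → Bool) (s : Bool) (k : ℕ) (l : ℕ → Bool) (i : ℕ) :
    ℤ :=
  if ladt (cf b (cY b o cl s k false) l (i + 1)) (-((i + 1) * b.M * (2 * h))) (Yr s) = true then
    -((i + 1) * b.M * (2 * h)) - 1 else -((i + 1) * b.M * (2 * h))

lemma cY_up {i : ℕ} (hi : k ≤ i) : cY b o cl s k true i = !cY b o cl s k false i := by
  unfold cY
  cases s <;> simp [hi]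

lemma yr_div {y : ℤ} (hh : 0 < h) (hy : |y - Yr s| ≤ 1) : dst (y / (2 * h)) = 0 ∧ (0 ≤ y / (2 * h) ↔ 0 ≤ y) := by
  have hn : (0 : ℤ) < 2 * h := by omega
  rw [abs_le] at hy
  have h1 : -2 ≤ y ∧ y ≤ 1 := by
    unfold Yr at hy
    split_ifs at hy <;> omega
  have h2 : dst (y / (2 * h)) < 1 := by
    rw [dst_lt, Int.le_ediv_iff_mul_le hn, Int.ediv_lt_iff_lt_mul hn]
    omega
  have h3 := dst_nonneg (y / (2 * h))
  exact ⟨by omega, nonneg_div hn⟩

lemma colM_l0 {base : Bool} (hM : M.card = 2) :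
    (colM base M (some r)).l 0 = !(colM base M (some r)).u 0 := by
  rw [colM_foot, hM]
  simp [par]

section row

variable (hb : b.Ok δ σ) (hd : δ ≤ 1) (hh : 0 < h)

include hb in
lemma N_pos (hh : 0 < h) : (0 : ℤ) < b.M * (2 * h) := by
  have hM : (0 : ℤ) < b.M := by exact_mod_cast hb.M0
  positivity

include hb in
lemma nPN : (nP b : ℤ) * (b.M * (2 * h)) = 2 * h * b.X := by
  rw [X_eq hb]; ring

include hb hd hh

omit hd in
/-- the tiles of the plates -/
lemma row_plate (hy : |y - Yr s| ≤ 1) (hx : x < 0) (hX : -(2 * h * b.X : ℤ) ≤ x) :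
    pidx (b.M * (2 * h)) x < nP b ∧ InQ b (2 * h) x y ∧
      chn 0 b.M b.τ (x / (2 * h), y / (2 * h)) = some (pidx (b.M * (2 * h)) x) := by
  have hn : (0 : ℤ) < 2 * h := by omega
  have hM : (0 : ℤ) < b.M := by exact_mod_cast hb.M0
  have hN := N_pos hb hh
  have hX' := nPN (h := h) hb
  have hXp : (0 : ℤ) < b.X := by exact_mod_cast X_pos hb
  have hH : (0 : ℤ) < b.H := by exact_mod_cast hb.H0
  have hτ : (0 : ℤ) < b.τ := by exact_mod_cast hb.τ0
  obtain ⟨d0, -⟩ := yr_div (s := s) hh hy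
  obtain ⟨i1, i2⟩ := (pidx_iff hN hx).1 rfl
  refine ⟨?_, ?_, ?_⟩
  · by_contra hcon
    have h1 : (nP b : ℤ) * (b.M * (2 * h)) ≤ pidx (b.M * (2 * h)) x * (b.M * (2 * h)) :=
      mul_le_mul_of_nonneg_right (by exact_mod_cast not_lt.1 hcon) hN.le
    linarith
  · rw [inQ_iff hb hn, d0]
    refine ⟨by unfold Ht; omega, ?_, ?_⟩
    · have : (0 : ℤ) < 2 * h * b.X := by positivity
      omega
    · rw [if_pos hH]; exact hX
  · rw [chn_some hb.M0]
    refine ⟨⟨?_, ?_⟩, ?_⟩
    · simp only [zero_sub]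
      rw [Int.le_ediv_iff_mul_le hn]
      linarith
    · simp only [zero_sub]
      rw [Int.ediv_lt_iff_lt_mul hn]
      linarith
    · unfold pix
      simp only [d0]
      omega

omit hd in
/-- the tiles of the outer layer -/
lemma row_layer (hy : |y - Yr s| ≤ 1) (hX : x < -(2 * h * b.X : ℤ)) (hL : -(2 * h * b.X : ℤ) - 3 ≤ x) :
    Ly b (2 * h) x y := by
  have hn : (0 : ℤ) < 2 * h := by omega
  have hXp : (0 : ℤ) < b.X := by exact_mod_cast X_pos hb
  have hH : (0 : ℤ) < b.H := by exact_mod_cast hb.H0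
  have hXX : (0 : ℤ) < 2 * h * b.X := by positivity
  have hX2 : (2 : ℤ) ≤ 2 * h * b.X := by nlinarith
  obtain ⟨d0, -⟩ := yr_div (s := s) hh hy
  refine ⟨?_, 3, 0, by norm_num, by norm_num, ?_⟩
  · rw [inQ_iff hb hn, d0, if_pos hH]
    rintro ⟨-, -, h1⟩
    omega
  · rw [inQ_iff hb hn, add_zero, d0, if_pos hH]
    refine ⟨by unfold Ht; omega, by omega, by omega⟩

omit hd in
/-- no tiles left of the layer -/
lemma row_out (M : Finset (Bool × ℕ)) (hL : x < -(2 * h * b.X : ℤ) - 3) : lt (x, y) ∉ Lam b (2 * h) M := by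
  have hn : (0 : ℤ) < 2 * h := by omega
  have key : ∀ x' y' : ℤ, x' < -(2 * h * b.X : ℤ) → ¬ InQ b (2 * h) x' y' := by
    intro x' y' h1 h2
    rw [inQ_iff hb hn] at h2
    obtain ⟨r1, -, r3⟩ := h2
    split_ifs at r3 with h3
    · omega
    · have h7 := (hb.st_lo (dst (y' / (2 * h)) - b.H).toNat (by unfold Ht at r1; omega)).1
      nlinarith
  rintro ⟨x', y', h1, h2⟩
  have h3 := lt_inj h1
  simp only [Prod.mk.injEq] at h3
  obtain ⟨rfl, rfl⟩ := h3
  rcases h2 with h2 | ⟨⟨-, i, j, hi, -, h2⟩, -⟩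
  · exact key _ _ (by omega) h2
  · rw [abs_le] at hi
    exact key _ _ (by omega) h2

/-- the string does not meet the rows at the deleted row -/
lemma str_row (hR : InR b (2 * h) x0 r) (hx : x < 0) (hy : |y - Yr s| ≤ 1) : ¬ (y = r ∧ x0 ≤ x) := by
  have hn : (0 : ℤ) < 2 * h := by omega
  rintro ⟨rfl, h2⟩
  obtain ⟨-, h3, -⟩ := (inR_iff hb hd hn).1 hR
  obtain ⟨d0, -⟩ := yr_div (s := s) hh hy
  have hA : Ar b (y / (2 * h)) = 0 := by
    unfold Ar
    rw [d0]
    have hH : (0 : ℤ) < b.H := by exact_mod_cast hb.H0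
    have hτ : (0 : ℤ) < b.τ := by exact_mod_cast hb.τ0
    have hP := nP_pos hb
    rw [ArD_slit hH (by omega)]
    have : ((0 : ℤ) - b.τ + 1).toNat = 0 := by omega
    rw [this]; simp
  rw [hA, mul_zero] at h3
  omega

/-- colour of the tiles at the deleted row -/
lemma row_col (hm : b.m ≤ nP b) (hk : 1 ≤ k) (hx1 : x1 = -(k * b.M * (2 * h))) (hω : ω ⊆ E1 b h)
    (hx : x < x1) (hL : -(2 * h * b.X : ℤ) - 3 ≤ x) (hy : |y - Yr s| ≤ 1) (hyY : y ≠ Yr s) :
    lt (x, y) ∈ wY b h w s x1 M r o cl ∪ ω ↔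
      cf b (cY b o cl s k (decide (0 ≤ y))) (if 0 ≤ y then (colM (bsP w s) M (some r)).u else
        (colM (bsP w s) M (some r)).l) (pidx (b.M * (2 * h)) x) = true := by
  have hn : (0 : ℤ) < 2 * h := by omega
  have hN := N_pos hb hh
  have hX' := nPN (h := h) hb
  have hM : (0 : ℤ) < b.M := by exact_mod_cast hb.M0
  have hH : (0 : ℤ) < b.H := by exact_mod_cast hb.H0
  have hXp : (0 : ℤ) < b.X := by exact_mod_cast X_pos hb
  have hXX : (0 : ℤ) < 2 * h * b.X := by positivity
  have hx0 : x < 0 := by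
    have : (0 : ℤ) < k * b.M * (2 * h) := by positivity
    omega
  obtain ⟨d0, d1⟩ := yr_div (s := s) hh hy
  rw [mem_union]
  rcases lt_or_ge x (-(2 * h * b.X : ℤ)) with h1 | h1
  · have hLy := row_layer (s := s) hb hh hy h1 hL
    have h2 : lt (x, y) ∉ ω := fun h3 => hLy.1 ((lt_mem_E1 hh).1 (hω h3)).1
    rw [or_iff_left h2, wY_outer hb hd w hh hm hLy, lcol_row hn (by omega)]
    have h3 : ¬ pidx (b.M * (2 * h)) x < nP b := by
      intro h4
      obtain ⟨i1, i2⟩ := (pidx_iff hN hx0).1 rfl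
      have h5 : ((pidx (b.M * (2 * h)) x : ℤ) + 1) * (b.M * (2 * h)) ≤ nP b * (b.M * (2 * h)) :=
        mul_le_mul_of_nonneg_right (by exact_mod_cast h4) hN.le
      linarith
    unfold cf
    rw [if_neg h3]
    by_cases h4 : 0 ≤ y
    · rw [if_pos (d1.2 h4), if_pos h4]
      rw [dst_pos (d1.2 h4)] at d0
      rw [d0]
      have : ((0 : ℤ) - b.H).toNat = 0 := by omega
      rw [this, Nat.min_zero]
    · rw [if_neg (fun h5 => h4 (d1.1 h5)), if_neg h4]
      rw [dst_npos (fun h5 => h4 (d1.1 h5))] at d0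
      rw [d0]
      have : ((0 : ℤ) - b.H).toNat = 0 := by omega
      rw [this, Nat.min_zero]
  · obtain ⟨h2, h3, h4⟩ := row_plate (s := s) hb hh hy hx0 h1
    rw [or_iff_left (chn_mem_E1 hh hω h4), wY_plate hb w hh hx1 h3 (fun h5 => hyY h5.1) h4]
    unfold cf
    rw [if_pos h2]

omit hd in
lemma pidx_ge (hk : 1 ≤ k) (hx1 : x1 = -(k * b.M * (2 * h))) (hx : x < x1) :
    k ≤ pidx (b.M * (2 * h)) x := by
  have hN := N_pos hb hh
  have hM : (0 : ℤ) < b.M := by exact_mod_cast hb.M0
  have hx0 : x < 0 := by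
    have : (0 : ℤ) < k * b.M * (2 * h) := by positivity
    omega
  obtain ⟨i1, i2⟩ := (pidx_iff hN hx0).1 rfl
  by_contra h1
  have h2 : ((pidx (b.M * (2 * h)) x : ℤ) + 1) * (b.M * (2 * h)) ≤ k * (b.M * (2 * h)) :=
    mul_le_mul_of_nonneg_right (by exact_mod_cast not_le.1 h1) hN.le
  nlinarith

omit hb hd hh in
/-- the colours on the two sides of the deleted row are opposite -/
lemma cf_up (hM2 : M.card = 2) {i : ℕ} (hi : k ≤ i) :
    cf b (cY b o cl s k true) (colM (bsP w s) M (some r)).u i =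
      !cf b (cY b o cl s k false) (colM (bsP w s) M (some r)).l i := by
  unfold cf
  split_ifs
  · exact cY_up hi
  · rw [colM_l0 hM2, Bool.not_not]

/-- **The deleted row.** -/
theorem dRow (hm : b.m ≤ nP b) (hM2 : M.card = 2) (hk : 1 ≤ k) (hx1 : x1 = -(k * b.M * (2 * h)))
    (hω : ω ⊆ E1 b h) (hR : InR b (2 * h) x0 r) :
    DRow (Lam b (2 * h) M) (lt '' (strD (x0, r) ∪ slD s x1)) (wY b h w s x1 M r o cl ∪ ω) (Yr s)
      (-(2 * h * b.X) - 3) x1 (pY b h o cl s k (colM (bsP w s) M (some r)).l) where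
  dl x _ hx := ⟨(x, Yr s), Or.inr ⟨rfl, hx⟩, rfl⟩
  lo x hL hx := by
    have hM : (0 : ℤ) < b.M := by exact_mod_cast hb.M0
    have hx0 : x < 0 := by
      have : (0 : ℤ) < k * b.M * (2 * h) := by positivity
      omega
    have hy : |Yr s - 1 - Yr s| ≤ 1 := by rw [abs_le]; constructor <;> linarith
    refine ⟨?_, ?_⟩
    · rintro ⟨q, h1, h2⟩
      have := lt_inj h2
      subst this
      rcases h1 with h1 | h1
      · exact str_row (s := s) hb hd hh hR hx0 hy h1
      · have := h1.1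
        simp only at this
        omega
    · rw [row_col hb hd hh hm hk hx1 hω hx hL hy (by omega)]
      have h0 : ¬ 0 ≤ Yr s - 1 := by unfold Yr; split_ifs <;> omega
      rw [if_neg h0, decide_eq_false h0]
      rfl
  up x hL hx := by
    have hM : (0 : ℤ) < b.M := by exact_mod_cast hb.M0
    have hx0 : x < 0 := by
      have : (0 : ℤ) < k * b.M * (2 * h) := by positivity
      omega
    have hy : |Yr s + 1 - Yr s| ≤ 1 := by rw [abs_le]; constructor <;> linarith
    refine ⟨?_, ?_⟩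
    · rintro ⟨q, h1, h2⟩
      have := lt_inj h2
      subst this
      rcases h1 with h1 | h1
      · exact str_row (s := s) hb hd hh hR hx0 hy h1
      · have := h1.1
        simp only at this
        omega
    · rw [row_col hb hd hh hm hk hx1 hω hx hL hy (by omega)]
      have h0 : 0 ≤ Yr s + 1 := by unfold Yr; split_ifs <;> omega
      rw [if_pos h0, decide_eq_true h0, cf_up hM2 (pidx_ge hb hh hk hx1 hx)]
      unfold pY
      cases cf b (cY b o cl s k false) (colM (bsP w s) M (some r)).l (pidx (b.M * (2 * h)) x) <;> simp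
  out x y hx _ := row_out hb hh M hx

end row

/-! ### The columns -/

lemma ladt_add (p : Bool) (x y : ℤ) : ladt p (x + 1) y = !ladt p x y := by
  have h1 := ladt_true (p := p) (x := x + 1) (y := y)
  have h2 := ladt_true (p := p) (x := x) (y := y)
  cases e1 : ladt p (x + 1) y <;> cases e2 : ladt p x y <;> rw [e1] at h1 <;> rw [e2] at h2 <;>
    cases p <;> simp at h1 h2 ⊢ <;> omega

/-- **(D2') The columns of the deleted row which are not columns of an interface.** -/
theorem col_closed (hb : b.Ok δ σ) (hd : δ ≤ 1) (hh : 0 < h) (hm : b.m ≤ nP b) (hM2 : M.card = 2)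
    (hk : 1 ≤ k) (hx1 : x1 = -(k * b.M * (2 * h))) (hω : ω ⊆ E1 b h) (hR : InR b (2 * h) x0 r)
    (hx : x < x1)
    (hA : ∀ i, k ≤ i → i < nP b →
      cf b (cY b o cl s k true) (colM (bsP w s) M (some r)).u i ≠
        cf b (cY b o cl s k true) (colM (bsP w s) M (some r)).u (i + 1) →
      x ≠ jcol b h o cl s k (colM (bsP w s) M (some r)).l i)
    (hE : ¬ (x = x1 - 1 ∧
      ladt (cf b (cY b o cl s k false) (colM (bsP w s) M (some r)).l k) x1 (Yr s) = true)) :
    ∃ K : Set (ℤ × ℤ), eS (lt (x, Yr s)) ∈ K ∧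
      (∀ c ∈ K, ∀ d, (SG (Lam b (2 * h) M) (lt '' (strD (x0, r) ∪ slD s x1))
        (wY b h w s x1 M r o cl ∪ ω)).Adj c d → d ∈ K) ∧
      ∀ c ∈ K, ∃ x' y', |y' - Yr s| ≤ 1 ∧ x' < x1 ∧ Sd (lt (x', y')) c := by
  have hN := N_pos hb hh
  have hM : (0 : ℤ) < b.M := by exact_mod_cast hb.M0
  have hx10 : x1 < 0 := by
    have : (0 : ℤ) < k * b.M * (2 * h) := by positivity
    omega
  -- a change of the colour at the line `z`
  have key : ∀ z : ℤ, z < x1 → pY b h o cl s k (colM (bsP w s) M (some r)).l (z - 1) ≠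
      pY b h o cl s k (colM (bsP w s) M (some r)).l z → ∃ i, k ≤ i ∧ i < nP b ∧
      z = -((i + 1) * b.M * (2 * h)) ∧
      pY b h o cl s k (colM (bsP w s) M (some r)).l (z - 1) =
        cf b (cY b o cl s k false) (colM (bsP w s) M (some r)).l (i + 1) ∧
      cf b (cY b o cl s k true) (colM (bsP w s) M (some r)).u i ≠
        cf b (cY b o cl s k true) (colM (bsP w s) M (some r)).u (i + 1) := by
    intro z hz hne
    have h1 : pidx (b.M * (2 * h)) (z - 1) ≠ pidx (b.M * (2 * h)) z := by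
      intro h2
      apply hne
      unfold pY
      rw [h2]
    obtain ⟨h2, h3⟩ := pidx_step hN (by omega) h1
    have h4 := pidx_ge hb hh hk hx1 hz
    refine ⟨pidx (b.M * (2 * h)) z, h4, ?_, by linarith, ?_, ?_⟩
    · by_contra h5
      apply hne
      unfold pY cf
      rw [h3, if_neg (by omega), if_neg h5]
    · unfold pY
      rw [h3]
    · rw [cf_up hM2 h4, cf_up hM2 (by omega)]
      intro h5
      apply hne
      unfold pY
      rw [h3]
      exact (Bool.not_inj h5).symm
  refine (dRow (w := w) (o := o) (cl := cl) hb hd hh hm hM2 hk hx1 hω hR).closed hx ?_ ?_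
  · intro _ h1
    by_contra h2
    obtain ⟨i, i1, i2, i3, i4, i5⟩ := key x hx h2
    apply hA i i1 i2 i5
    unfold jcol
    rw [← i3, ← i4]
    have h3 : pY b h o cl s k (colM (bsP w s) M (some r)).l (x - 1) =
        !pY b h o cl s k (colM (bsP w s) M (some r)).l x := by
      cases e1 : pY b h o cl s k (colM (bsP w s) M (some r)).l (x - 1) <;>
        cases e2 : pY b h o cl s k (colM (bsP w s) M (some r)).l x <;> simp_all
    rw [h3, ladt_not, h1]
    simp
  · intro _ h1
    have h6 : x + 1 < x1 := by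
      by_contra h2
      have h3 : x = x1 - 1 := by omega
      apply hE
      refine ⟨h3, ?_⟩
      have h4 : pidx (b.M * (2 * h)) x = k := by
        rw [pidx_iff hN (by omega)]
        constructor
        · nlinarith
        · nlinarith
      unfold pY at h1
      rw [h4] at h1
      have h5 := ladt_add (cf b (cY b o cl s k false) (colM (bsP w s) M (some r)).l k) x (Yr s)
      rw [h1, h3, sub_add_cancel] at h5
      rw [h5]
      rfl
    refine ⟨h6, ?_⟩
    by_contra h2
    have h2' : pY b h o cl s k (colM (bsP w s) M (some r)).l (x + 1 - 1) ≠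
        pY b h o cl s k (colM (bsP w s) M (some r)).l (x + 1) := by
      rw [add_sub_cancel_right]
      exact fun h3 => h2 h3.symm
    obtain ⟨i, i1, i2, i3, i4, i5⟩ := key (x + 1) h6 h2'
    apply hA i i1 i2 i5
    unfold jcol
    rw [← i3, ← i4, add_sub_cancel_right, ladt_add, h1]
    simp

end Pool.Agent.H37.W
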