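import Mathlib

set_option autoImplicit false

/-! # Two noncrossing partitions of a cycle: positions of four marks

`R ⊆ R'` are noncrossing equivalence relations on `ℤ / N`, lifted to `ℤ`. If they differ, then there are
classes `C ∋ a, a'`, `C' ∋ b, b'` of `R`, in one class of `R'`, such that no class of `R` meets both of
the arcs `(b' - N, a')` and `(a', b')` (`exists_marks`, `Marks.sep`). -/

namespace Pool.Agent.H37.W

/-- noncrossing equivalence relation on `ℤ / N` -/
structure NCR (N : ℤ) (R : ℤ → ℤ → Prop) : Prop where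
  refl : ∀ x, R x x
  symm : ∀ {x y}, R x y → R y x
  trans : ∀ {x y z}, R x y → R y z → R x z
  per : ∀ x, R x (x + N)
  nc : ∀ {w x y z}, w < x → x < y → y < z → z < w + N → R w y → R x z → R w x

/-- the data of two classes -/
structure Quad (N : ℤ) (R R' : ℤ → ℤ → Prop) (a a' b b' : ℤ) : Prop where
  h1 : a ≤ a'
  h2 : a' < b
  h3 : b ≤ b'
  h4 : b' < a + N
  ra : R a a'
  rb : R b b'
  o : R' a b
  n : ¬ R a b

/-- the extreme elements of two neighbouring classes -/
structure Marks (N : ℤ) (R R' : ℤ → ℤ → Prop) (a a' b b' : ℤ) : Prop extends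
    Quad N R R' a a' b b' where
  ca : ∀ y, a' < y → y < a + N → ¬ R a y
  cb : ∀ y, b' < y → y < b + N → ¬ R b y
  third : ∀ x y, a' < x → x < b → b' < y → y < a + N → ¬ R x y

variable {N : ℤ} {R R' : ℤ → ℤ → Prop}

lemma NCR.perz {S : ℤ → ℤ → Prop} (hS : NCR N S) (k : ℤ) (u : ℤ) : S u (u + k * N) := by
  have hperk : ∀ (k : ℕ) (u : ℤ), S u (u + k * N) := by
    intro k
    induction k with
    | zero => intro u; simpa using hS.refl u
    | succ k ih =>
      intro u
      have h1 := hS.trans (ih u) (hS.per (u + k * N))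
      have h2 : u + (k : ℤ) * N + N = u + ((k + 1 : ℕ) : ℤ) * N := by push_cast; ring
      rwa [h2] at h1
  rcases le_total 0 k with hk | hk
  · obtain ⟨n, rfl⟩ := Int.eq_ofNat_of_zero_le hk
    exact hperk n u
  · obtain ⟨n, hn⟩ := Int.eq_ofNat_of_zero_le (neg_nonneg.2 hk)
    have h1 := hperk n (u + k * N)
    have h2 : u + k * N + n * N = u := by rw [← hn]; ring
    rw [h2] at h1
    exact hS.symm h1

lemma NCR.add {S : ℤ → ℤ → Prop} (hS : NCR N S) {x y : ℤ} (h : S x y) : S (x + N) (y + N) :=
  hS.trans (hS.symm (hS.per x)) (hS.trans h (hS.per y))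

/-- **Two classes.** -/
theorem exists_marks (hN : 0 < N) (hR : NCR N R) (hR' : NCR N R') (hle : ∀ x y, R x y → R' x y)
    {x y : ℤ} (ho : R' x y) (hn : ¬ R x y) : ∃ a a' b b', Marks N R R' a a' b b' := by
  classical
  -- a first quadruple
  have hfirst : ∃ a a' b b', Quad N R R' a a' b b' := by
    set y' := x + (y - x) % N with hy'
    have hm0 : 0 ≤ (y - x) % N := Int.emod_nonneg _ hN.ne'
    have hm1 : (y - x) % N < N := Int.emod_lt_of_pos _ hN
    have hyy : y' + (y - x) / N * N = y := by
      have := Int.emod_add_mul_ediv (y - x) N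
      rw [hy']
      linarith
    have h1 : R y' y := by
      have := hR.perz ((y - x) / N) y'
      rwa [hyy] at this
    have hne : y' ≠ x := fun e => hn (e ▸ h1)
    have hlt : x < y' := by omega
    refine ⟨x, x, y', y', le_rfl, hlt, le_rfl, by omega, hR.refl _, hR.refl _,
      hR'.trans ho (hle _ _ (hR.symm h1)), fun h => hn (hR.trans h h1)⟩
  -- the longest one
  let Q : ℕ → Prop := fun m => ∃ a a' b b', Quad N R R' a a' b b' ∧ (a' - a) + (b' - b) = m
  have hbound : ∀ {a a' b b'}, Quad N R R' a a' b b' → (a' - a) + (b' - b) ≤ N.toNat := by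
    intro a a' b b' q
    have := q.h1; have := q.h2; have := q.h3; have := q.h4
    omega
  obtain ⟨a0, a0', b0, b0', q0⟩ := hfirst
  have hQ0 : Q ((a0' - a0) + (b0' - b0)).toNat := by
    refine ⟨a0, a0', b0, b0', q0, ?_⟩
    have := q0.h1; have := q0.h3
    omega
  have hle0 : ((a0' - a0) + (b0' - b0)).toNat ≤ N.toNat := by
    have := hbound q0
    omega
  set M := Nat.findGreatest Q N.toNat with hM
  obtain ⟨a, a', b, b', q, hm⟩ := Nat.findGreatest_spec hle0 hQ0
  rw [← hM] at hm
  have hmax : ∀ {c c' d d'}, Quad N R R' c c' d d' → (c' - c) + (d' - d) ≤ M := by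
    intro c c' d d' q'
    have h1 := hbound q'
    have h2 : ((c' - c) + (d' - d)).toNat ≤ M :=
      Nat.le_findGreatest (by omega) ⟨c, c', d, d', q', by have := q'.h1; have := q'.h3; omega⟩
    have := q'.h1; have := q'.h3
    omega
  have h1 := q.h1
  have h2 := q.h2
  have h3 := q.h3
  have h4 := q.h4
  have hca : ∀ y, a' < y → y < a + N → ¬ R a y := by
    intro y hy1 hy2 hay
    rcases lt_trichotomy y b with hb | hb | hb
    · have := hmax (c := a) (c' := y) (d := b) (d' := b')
        ⟨by omega, hb, h3, h4, hay, q.rb, q.o, q.n⟩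
      omega
    · exact q.n (hb ▸ hay)
    · rcases lt_trichotomy y b' with hb' | hb' | hb'
      · exact q.n (hR.nc (by omega) hb hb' (by omega) hay q.rb)
      · exact q.n (hR.trans hay (hb' ▸ hR.symm q.rb))
      · have hay' : R (y - N) a := by
          have h5 := hR.per (y - N)
          rw [sub_add_cancel] at h5
          exact hR.trans h5 (hR.symm hay)
        have := hmax (c := y - N) (c' := a') (d := b) (d' := b')
          ⟨by omega, h2, h3, by omega, hR.trans hay' q.ra, q.rb, hR'.trans (hle _ _ hay') q.o,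
            fun h => q.n (hR.trans (hR.symm hay') h)⟩
        omega
  have hcb : ∀ y, b' < y → y < b + N → ¬ R b y := by
    intro y hy1 hy2 hby
    rcases lt_trichotomy y (a + N) with hb | hb | hb
    · have := hmax (c := a) (c' := a') (d := b) (d' := y)
        ⟨h1, h2, by omega, hb, q.ra, hby, q.o, q.n⟩
      omega
    · exact q.n (hR.trans (hR.per a) (hb ▸ hR.symm hby))
    · have hby' : R b (y - N) := by
        have h5 := hR.per (y - N)
        rw [sub_add_cancel] at h5
        exact hR.trans hby (hR.symm h5)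
      rcases lt_trichotomy (y - N) a' with hb' | hb' | hb'
      · exact q.n (hR.trans (hR.nc (by omega : a < y - N) hb' h2 (by omega) q.ra (hR.symm hby'))
          (hR.symm hby'))
      · exact q.n (hR.trans q.ra (hb' ▸ hR.symm hby'))
      · have := hmax (c := a) (c' := a') (d := y - N) (d' := b')
          ⟨h1, hb', by omega, h4, q.ra, hR.trans (hR.symm hby') q.rb, hR'.trans q.o (hle _ _ hby'),
            fun h => q.n (hR.trans h (hR.symm hby'))⟩
        omega
  refine ⟨a, a', b, b', q, hca, hcb, ?_⟩
  intro x y hx1 hx2 hy1 hy2 hxy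
  have hax : R' a x := by
    have h5 : R' a' b := hR'.trans (hle _ _ (hR.symm q.ra)) q.o
    exact hR'.trans (hle _ _ q.ra) (hR'.nc hx1 hx2 (by omega) (by omega) h5 (hle _ _ hxy))
  have := hmax (c := a) (c' := a') (d := x) (d' := y)
    ⟨h1, hx1, by omega, hy2, q.ra, hxy, hax, hca x hx1 (by omega)⟩
  omega

/-- **No class of `R` meets both arcs.** -/
theorem Marks.sep (hR : NCR N R) {a a' b b' : ℤ} (m : Marks N R R' a a' b b') {x y : ℤ}
    (hx1 : b' - N < x) (hx2 : x < a') (hy1 : a' < y) (hy2 : y < b') : ¬ R x y := by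
  intro hxy
  have h1 := m.h1
  have h2 := m.h2
  have h3 := m.h3
  have h4 := m.h4
  by_cases hxa : a ≤ x
  · rcases hxa.eq_or_lt with rfl | hxa
    · exact m.ca y hy1 (by omega) hxy
    · have h5 := hR.nc hxa hx2 hy1 (by omega) m.ra hxy
      exact m.ca y hy1 (by omega) (hR.trans h5 hxy)
  · push Not at hxa
    have hxN : R x (x + N) := hR.per x
    by_cases hyb : b ≤ y
    · rcases hyb.eq_or_lt with rfl | hyb
      · exact m.cb (x + N) (by omega) (by omega) (hR.trans (hR.symm hxy) hxN)
      · have h5 := hR.nc hyb hy2 (by omega : b' < x + N) (by omega) m.rb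
          (hR.trans (hR.symm hxy) hxN)
        exact m.cb (x + N) (by omega) (by omega) (hR.trans h5 (hR.trans (hR.symm hxy) hxN))
    · push Not at hyb
      exact m.third y (x + N) hy1 hyb (by omega) (by omega) (hR.trans (hR.symm hxy) hxN)

end Pool.Agent.H37.W
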