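import Mathlib
import Pool.Agent.H78.W.VG
import Pool.Agent.H82.W.EqLaw
import Pool.Agent.H35.W.Force

set_option autoImplicit false
set_option linter.unusedSimpArgs false
open Finset

/-! # V-EQ: the two canonical worlds of a chord, forced (13's note 2192, (7))

`WU` with the row below the plates and the row below the tooth forced to the tile above (`FcU`), `WL` with the row
above the plates forced to the tile below (`FcL`): the plates right of `xs` occupy the rows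
`Yc - T - 1 ≤ y ≤ Yc + T` in both; the flips differ by a flip of the coins of these plates. `veq` : all
expectations are equal. -/

namespace Pool.Agent.H37.W

open Pool.Agent.H33.Q1 (lt tt lt_odd tt_lt lt_tt lt_inj)
open Pool.Agent.H82.W
open Pool.Agent.H13.W (up dn)
open Pool.Agent.H19.W (cx cy cx_lt cy_lt lt_cc cx_up cy_up cx_dn cy_dn dn_up up_dn)
open Pool.Agent.H78.W
open Pool.Agent.H35.W (Force mem_Force)

variable {κ : Type*} (G : Pic κ)

/-- the forced labels of `WU` : the row below the plates right of `xs`, and the row below the tooth -/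
def FcU : Finset (ℤ × ℤ) := (G.E.filter fun e =>
  G.xs ≤ cx e ∧ cx e < G.xe ∧ cy e = G.Yc - G.T (cx e) - 1) ∪ G.Rt

/-- the forced labels of `WL` : the row above the plates right of `xs` -/
def FcL : Finset (ℤ × ℤ) := G.E.filter fun e =>
  G.xs ≤ cx e ∧ cx e < G.xe ∧ cy e = G.Yc + G.T (cx e)

open Classical in
/-- the live labels -/
noncomputable def Lv : Finset (ℤ × ℤ) := (G.E \ G.Rt).filter fun e =>
  ¬ (cy e = G.Yd ∧ G.xs ≤ cx e ∧ cx e < G.xe)

open Classical in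
/-- representative in `WU` -/
noncomputable def rU (l : ℤ × ℤ) : ℤ × ℤ := if l ∈ FcU G then up l else l

open Classical in
/-- representative in `WL` -/
noncomputable def rL (l : ℤ × ℤ) : ℤ × ℤ := if l ∈ FcL G then dn l else l

variable {G} {xl H : ℤ} (hG : G.Ok xl H) {l l' : ℤ × ℤ}

include hG

lemma odd_E (h : l ∈ G.E) : (l.1 + l.2) % 2 = 1 := hG.odd l (hG.sub h)

lemma E_band {x y : ℤ} (h1 : G.xs ≤ x) (h2 : x < G.xe) (h3 : G.Yc - G.T x - 1 ≤ y) (h4 : y ≤ G.Yc + G.T x) :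
    lt (x, y) ∈ G.E := by
  have h5 := hG.xls
  have h6 := hG.th x (by omega) h2
  exact hG.gl x y (by omega) h2 (by omega) (by omega)

lemma pl_band {x y : ℤ} (h1 : G.xs ≤ x) (h2 : x < G.xe) (h3 : G.Yc - G.T x ≤ y) (h4 : y < G.Yc + G.T x) :
    G.pl x y = some (G.kn (x / G.m)) := by
  have h5 := hG.xls
  have h6 := hG.th x (by omega) h2
  rw [hG.pc x y (by omega) h2 (by omega) (by omega), if_pos ⟨h3, h4⟩]

lemma T_pos {x : ℤ} (h1 : G.xs ≤ x) (h2 : x < G.xe) : 2 * (G.h : ℤ) ≤ G.T x ∧ 0 < (G.h : ℤ) := by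
  have h5 := hG.xls
  have h7 := hG.hh
  exact ⟨(hG.th x (by omega) h2).1, by exact_mod_cast h7⟩

omit hG in
lemma mem_FcU' (h : l ∉ G.Rt) :
    l ∈ FcU G ↔ l ∈ G.E ∧ G.xs ≤ cx l ∧ cx l < G.xe ∧ cy l = G.Yc - G.T (cx l) - 1 := by
  unfold FcU
  rw [mem_union, or_iff_left h, mem_filter]

omit hG in
lemma mem_Rt : l ∈ G.Rt ↔ l ∈ G.E ∧ cy l = G.Yc - 1 ∧ G.xe ≤ cx l ∧ cx l < G.xt := by
  unfold Pic.Rt
  rw [mem_filter]

omit hG in
lemma mem_FcL : l ∈ FcL G ↔ l ∈ G.E ∧ G.xs ≤ cx l ∧ cx l < G.xe ∧ cy l = G.Yc + G.T (cx l) := by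
  unfold FcL
  rw [mem_filter]

omit hG in
lemma mem_FU : l ∈ G.FU ↔ l ∈ G.E ∧ G.xs ≤ cx l ∧ cx l < G.xe ∧ G.Yd < cy l ∧ cy l ≤ G.Yc + G.T (cx l) := by
  unfold Pic.FU
  rw [mem_filter]

omit hG in
lemma mem_FL : l ∈ G.FL ↔ l ∈ G.E ∧ G.xs ≤ cx l ∧ cx l < G.xe ∧ G.Yc - G.T (cx l) - 1 ≤ cy l ∧
    cy l < G.Yd := by
  unfold Pic.FL
  rw [mem_filter]

omit hG in
lemma mem_Lv : l ∈ Lv G ↔ (l ∈ G.E ∧ l ∉ G.Rt) ∧ ¬ (cy l = G.Yd ∧ G.xs ≤ cx l ∧ cx l < G.xe) := by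
  unfold Lv
  rw [mem_filter, mem_sdiff]

lemma up_E (h : l ∈ FcU G) (hR : l ∉ G.Rt) : up l ∈ G.E := by
  obtain ⟨h1, h2, h3, h4⟩ := (mem_FcU' hR).1 h
  have e : up l = lt (cx l, cy l + 1) := by
    have h5 : ((up l).1 + (up l).2) % 2 = 1 := Pool.Agent.H19.W.odd_up.2 (odd_E hG h1)
    rw [← cx_up, ← cy_up, lt_cc h5]
  have := T_pos hG h2 h3
  rw [e]
  exact E_band hG h2 h3 (by omega) (by omega)

lemma dn_E (h : l ∈ FcL G) : dn l ∈ G.E ∧ dn l ∉ G.Rt := by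
  obtain ⟨h1, h2, h3, h4⟩ := mem_FcL.1 h
  have e : dn l = lt (cx l, cy l - 1) := by
    have h5 : ((dn l).1 + (dn l).2) % 2 = 1 := Pool.Agent.H19.W.odd_dn.2 (odd_E hG h1)
    rw [← cx_dn, ← cy_dn, lt_cc h5]
  have := T_pos hG h2 h3
  refine ⟨?_, fun h6 => ?_⟩
  · rw [e]
    exact E_band hG h2 h3 (by omega) (by omega)
  · have := (mem_Rt.1 h6).2.2.1
    rw [cx_dn] at this
    omega

/-- the plates right of `xs` in the forced worlds -/
def InS (G : Pic κ) (l : ℤ × ℤ) : Prop :=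
  G.xs ≤ cx l ∧ cx l < G.xe ∧ G.Yc - G.T (cx l) - 1 ≤ cy l ∧ cy l ≤ G.Yc + G.T (cx l)

/-- blocks in the band -/
lemma blk_in (h : l ∈ Lv G) (hS : InS G l) :
    bb G.plU (rU G l) = Sum.inr (G.kn (cx l / G.m)) ∧ bb G.plL (rL G l) = Sum.inr (G.kn (cx l / G.m)) := by
  obtain ⟨⟨hE, hR⟩, -⟩ := mem_Lv.1 h
  obtain ⟨s1, s2, s3, s4⟩ := hS
  have hT := T_pos hG s1 s2
  constructor
  · unfold rU
    by_cases h1 : l ∈ FcU G
    · rw [if_pos h1]
      obtain ⟨-, -, -, h5⟩ := (mem_FcU' hR).1 h1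
      unfold bb Pic.plU
      rw [cx_up, cy_up, if_neg (by omega), pl_band hG s1 s2 (by omega) (by omega)]
    · rw [if_neg h1]
      unfold bb Pic.plU
      have h2 : cy l ≠ G.Yc - G.T (cx l) - 1 := fun h3 => h1 ((mem_FcU' hR).2 ⟨hE, s1, s2, h3⟩)
      split_ifs with h3
      · rw [pl_band hG s1 s2 (by omega) (by omega)]
      · rw [pl_band hG s1 s2 (by omega) (by omega)]
  · unfold rL
    by_cases h1 : l ∈ FcL G
    · rw [if_pos h1]
      obtain ⟨-, -, -, h5⟩ := mem_FcL.1 h1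
      unfold bb Pic.plL
      rw [cx_dn, cy_dn, if_neg (by omega), pl_band hG s1 s2 (by omega) (by omega)]
    · rw [if_neg h1]
      unfold bb Pic.plL
      have h2 : cy l ≠ G.Yc + G.T (cx l) := fun h3 => h1 (mem_FcL.2 ⟨hE, s1, s2, h3⟩)
      split_ifs with h3
      · rw [pl_band hG s1 s2 (by omega) (by omega)]
      · rw [pl_band hG s1 s2 (by omega) (by omega)]

omit hG in
/-- blocks off the band -/
lemma blk_out (h : l ∈ Lv G) (hS : ¬ InS G l) (hT : G.xs ≤ cx l → cx l < G.xe → 0 < G.T (cx l)) :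
    rU G l = l ∧ rL G l = l ∧ bb G.plU l = bb G.pl l ∧ bb G.plL l = bb G.pl l := by
  obtain ⟨⟨hE, hR⟩, -⟩ := mem_Lv.1 h
  have h1 : l ∉ FcU G := fun h1 => by
    obtain ⟨-, a1, a2, a3⟩ := (mem_FcU' hR).1 h1
    have := hT a1 a2
    exact hS ⟨a1, a2, by omega, by omega⟩
  have h2 : l ∉ FcL G := fun h1 => by
    obtain ⟨-, a1, a2, a3⟩ := mem_FcL.1 h1
    have := hT a1 a2
    exact hS ⟨a1, a2, by omega, by omega⟩
  refine ⟨if_neg h1, if_neg h2, ?_, ?_⟩
  · unfold bb Pic.plU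
    rw [if_neg]
    rintro ⟨a1, a2, a3⟩
    exact h2 (mem_FcL.2 ⟨hE, a1, a2, a3⟩)
  · unfold bb Pic.plL
    rw [if_neg]
    rintro ⟨a1, a2, a3⟩
    exact h1 ((mem_FcU' hR).2 ⟨hE, a1, a2, a3⟩)

/-- the same blocks -/
lemma blk_eq (h : l ∈ Lv G) : bb G.plU (rU G l) = bb G.plL (rL G l) := by
  by_cases hS : InS G l
  · obtain ⟨h1, h2⟩ := blk_in hG h hS
    rw [h1, h2]
  · obtain ⟨h1, h2, h3, h4⟩ := blk_out h hS fun a1 a2 => by
      have := T_pos hG a1 a2
      omega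
    rw [h1, h2, h3, h4]

/-- the flips differ on the plates right of `xs` -/
lemma flip_iff (h : l ∈ Lv G) : Xor (rU G l ∈ G.FU) (rL G l ∈ G.FL) ↔ InS G l := by
  obtain ⟨⟨hE, hR⟩, hY⟩ := mem_Lv.1 h
  by_cases hS : InS G l
  · simp only [hS, iff_true]
    obtain ⟨s1, s2, s3, s4⟩ := hS
    have hT := T_pos hG s1 s2
    have hYd : G.Yd = G.Yc + G.h := rfl
    rcases lt_or_ge (cy l) G.Yd with h1 | h1
    · -- below the string
      refine Or.inr ⟨?_, ?_⟩
      · have h2 : rL G l = l := if_neg fun h2 => by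
          have := (mem_FcL.1 h2).2.2.2
          omega
        rw [h2, mem_FL]
        exact ⟨hE, s1, s2, s3, h1⟩
      · unfold rU
        split_ifs with h2
        · obtain ⟨-, -, -, h5⟩ := (mem_FcU' hR).1 h2
          rw [mem_FU, cx_up, cy_up]
          omega
        · rw [mem_FU]
          omega
    · have h1' : G.Yd < cy l := lt_of_le_of_ne h1 fun h2 => hY ⟨h2.symm, s1, s2⟩
      refine Or.inl ⟨?_, ?_⟩
      · have h2 : rU G l = l := if_neg fun h2 => by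
          have := ((mem_FcU' hR).1 h2).2.2.2
          omega
        rw [h2, mem_FU]
        exact ⟨hE, s1, s2, h1', s4⟩
      · unfold rL
        split_ifs with h2
        · obtain ⟨-, -, -, h5⟩ := mem_FcL.1 h2
          rw [mem_FL, cx_dn, cy_dn]
          omega
        · rw [mem_FL]
          omega
  · simp only [hS, iff_false]
    obtain ⟨h1, h2, -, -⟩ := blk_out h hS fun a1 a2 => by
      have := T_pos hG a1 a2
      omega
    rw [h1, h2]
    have hYd : G.Yd = G.Yc + G.h := rfl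
    rintro (⟨h3, -⟩ | ⟨h3, -⟩)
    · obtain ⟨-, a1, a2, a3, a4⟩ := mem_FU.1 h3
      have hT := T_pos hG a1 a2
      exact hS ⟨a1, a2, by omega, a4⟩
    · obtain ⟨-, a1, a2, a3, a4⟩ := mem_FL.1 h3
      have hT := T_pos hG a1 a2
      exact hS ⟨a1, a2, a3, by omega⟩

/-- the set is a union of blocks -/
lemma inS_blk (h : l ∈ Lv G) (h' : l' ∈ Lv G) (hb : bb G.plU (rU G l) = bb G.plU (rU G l'))
    (hS : InS G l) : InS G l' := by
  by_contra hS'
  obtain ⟨h1, -, h3, -⟩ := blk_out h' hS' fun a1 a2 => by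
    have := T_pos hG a1 a2
    omega
  rw [(blk_in hG h hS).1, h1, h3] at hb
  obtain ⟨s1, s2, -, -⟩ := hS
  have hp : G.pl (cx l') (cy l') = some (G.kn (cx l / G.m)) := by
    unfold bb at hb
    cases hq : G.pl (cx l') (cy l') with
    | none => rw [hq] at hb; simp at hb
    | some q => rw [hq] at hb; simp only [Sum.inr.injEq] at hb; rw [hb]
  have hx := hG.xls
  obtain ⟨a1, a2, a3⟩ := hG.po _ _ _ (by omega) s2 hp
  have hm := hG.hm
  obtain ⟨q1, e1⟩ := hG.dxs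
  obtain ⟨q2, e2⟩ := hG.dxe
  have b1 : q1 ≤ cx l / G.m := by
    rw [Int.le_ediv_iff_mul_le hm, mul_comm, ← e1]; exact s1
  have b2 : cx l / G.m < q2 := by
    rw [Int.ediv_lt_iff_lt_mul hm, mul_comm, ← e2]; exact s2
  rw [← a1, Int.le_ediv_iff_mul_le hm, mul_comm, ← e1] at b1
  rw [← a1, Int.ediv_lt_iff_lt_mul hm, mul_comm, ← e2] at b2
  exact hS' ⟨b1, b2, by omega, by omega⟩

lemma E_W0 (h : l ∈ G.E) (t : ℤ) : l ∉ G.KN t := by
  classical
  unfold Pic.KN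
  rw [mem_symmDiff, mem_filter, mem_sdiff]
  have h1 : l ∉ G.W0 := fun h2 => hG.dis l h2 h
  tauto

omit hG in
lemma mem_xf {L : Finset (ℤ × ℤ)} {q : ℤ × ℤ → ℤ × ℤ} {f : ℤ × ℤ → Prop} {ω : Finset (ℤ × ℤ)} :
    l ∈ xf L q f ω ↔ l ∈ L ∧ Xor (q l ∈ ω) (f l) := by
  classical
  unfold xf
  rw [mem_filter]

omit hG in
lemma RtW_sub : G.RtW ⊆ G.Rt := filter_subset _ _

/-- **The state of the forced world `WU`.** -/
lemma st_U {ω : Finset (ℤ × ℤ)} (hω : ω ⊆ G.E) (hl : l ∉ G.DN G.xs G.Yd) :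
    l ∈ Force (FcU G) up (G.WU.st ω) ↔
      l ∈ xf (Lv G) (rU G) (fun l => rU G l ∈ G.FU) ω ∪ (G.KN G.Yd ∪ G.RtW) := by
  have hW : G.WU.W = G.KN G.Yd := rfl
  have hF : G.WU.F = G.FU := rfl
  rw [mem_Force, mem_union, mem_union]
  by_cases hE : l ∈ G.E
  · have hK := E_W0 hG hE G.Yd
    by_cases hR : l ∈ G.Rt
    · obtain ⟨-, r1, r2, r3⟩ := mem_Rt.1 hR
      have hU : l ∈ FcU G := mem_union_right _ hR
      have hx : l ∉ xf (Lv G) (rU G) (fun l => rU G l ∈ G.FU) ω := fun h =>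
        (mem_Lv.1 (mem_xf.1 h).1).1.2 hR
      -- the tile of the tooth
      have hodd : ((up l).1 + (up l).2) % 2 = 1 := Pool.Agent.H19.W.odd_up.2 (odd_E hG hE)
      have hup : up l ∉ G.E := by
        have h1 := (hG.gt (cx l) G.Yc r2 r3 le_rfl (by
          have := hG.YF1; have := hG.YF2; have := hG.hh
          have : G.Yd = G.Yc + G.h := rfl
          omega)).1
        have e : up l = lt (cx l, G.Yc) := by
          rw [← lt_cc hodd, cx_up, cy_up, r1, sub_add_cancel]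
        rw [e]; exact h1
      have h2 : up l ∈ G.WU.st ω ↔ up l ∈ G.KN G.Yd :=
        WD.mem_st' (fun h => hup (hω h)) (by rw [hF]; exact fun h => hup (mem_FU.1 h).1)
      have h3 : l ∈ G.RtW ↔ up l ∈ G.KN G.Yd := by
        unfold Pic.RtW
        rw [mem_filter, and_iff_right hR]
      rw [h2, h3]
      tauto
    · have hRW : l ∉ G.RtW := fun h => hR (RtW_sub h)
      have hY : ¬ (cy l = G.Yd ∧ G.xs ≤ cx l ∧ cx l < G.xe) := by
        rintro ⟨a1, a2, a3⟩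
        exact hl ⟨odd_E hG hE, Or.inl ⟨a1, a2, a3.le⟩⟩
      have hL : l ∈ Lv G := mem_Lv.2 ⟨⟨hE, hR⟩, hY⟩
      have hx : l ∈ xf (Lv G) (rU G) (fun l => rU G l ∈ G.FU) ω ↔ Xor (rU G l ∈ ω) (rU G l ∈ G.FU) := by
        rw [mem_xf, and_iff_right hL]
      rw [hx, or_iff_left (show ¬ (l ∈ G.KN G.Yd ∨ l ∈ G.RtW) by tauto)]
      by_cases hU : l ∈ FcU G
      · have e : rU G l = up l := if_pos hU
        have h2 : up l ∉ G.WU.W := by rw [hW]; exact E_W0 hG (up_E hG hU hR) _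
        rw [e, WD.mem_st h2, hF]
        simp only [hU, not_true_eq_false, not_false_eq_true, false_and, true_and, false_or, or_false]
      · have e : rU G l = l := if_neg hU
        have h2 : l ∉ G.WU.W := by rw [hW]; exact hK
        rw [e, WD.mem_st h2, hF]
        simp only [hU, not_true_eq_false, not_false_eq_true, false_and, true_and, false_or, or_false]
  · have hR : l ∉ G.Rt := fun h => hE (mem_Rt.1 h).1
    have hU : l ∉ FcU G := fun h => hE ((mem_FcU' hR).1 h).1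
    have hRW : l ∉ G.RtW := fun h => hR (RtW_sub h)
    have hx : l ∉ xf (Lv G) (rU G) (fun l => rU G l ∈ G.FU) ω := fun h =>
      hE (mem_Lv.1 (mem_xf.1 h).1).1.1
    have h2 : l ∈ G.WU.st ω ↔ l ∈ G.KN G.Yd :=
      WD.mem_st' (fun h => hE (hω h)) (by rw [hF]; exact fun h => hE (mem_FU.1 h).1)
    rw [h2]
    tauto

/-- **The state of the forced world `WL`.** -/
lemma st_L {ω : Finset (ℤ × ℤ)} (hω : ω ⊆ G.E \ G.Rt) (hl : l ∉ G.DN G.xs G.Yd) :
    l ∈ Force (FcL G) dn (G.WL.st ω) ↔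
      l ∈ xf (Lv G) (rL G) (fun l => rL G l ∈ G.FL) ω ∪ (G.KN G.Yd ∪ G.RtW) := by
  have hW : G.WL.W = G.KN G.Yd ∪ G.RtW := rfl
  have hF : G.WL.F = G.FL := rfl
  have hωE : ∀ e ∈ ω, e ∈ G.E ∧ e ∉ G.Rt := fun e he => mem_sdiff.1 (hω he)
  rw [mem_Force, mem_union, mem_union]
  by_cases hE : l ∈ G.E
  · have hK := E_W0 hG hE G.Yd
    by_cases hR : l ∈ G.Rt
    · obtain ⟨-, r1, r2, r3⟩ := mem_Rt.1 hR
      have hU : l ∉ FcL G := fun h => by
        have := (mem_FcL.1 h).2.2.1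
        omega
      have hx : l ∉ xf (Lv G) (rL G) (fun l => rL G l ∈ G.FL) ω := fun h =>
        (mem_Lv.1 (mem_xf.1 h).1).1.2 hR
      have h2 : l ∈ G.WL.st ω ↔ l ∈ G.WL.W :=
        WD.mem_st' (fun h => (hωE l h).2 hR) (by
          rw [hF]
          intro h
          have := (mem_FL.1 h).2.2.1
          omega)
      rw [h2, hW, mem_union]
      tauto
    · have hRW : l ∉ G.RtW := fun h => hR (RtW_sub h)
      have hY : ¬ (cy l = G.Yd ∧ G.xs ≤ cx l ∧ cx l < G.xe) := by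
        rintro ⟨a1, a2, a3⟩
        exact hl ⟨odd_E hG hE, Or.inl ⟨a1, a2, a3.le⟩⟩
      have hL : l ∈ Lv G := mem_Lv.2 ⟨⟨hE, hR⟩, hY⟩
      have hx : l ∈ xf (Lv G) (rL G) (fun l => rL G l ∈ G.FL) ω ↔ Xor (rL G l ∈ ω) (rL G l ∈ G.FL) := by
        rw [mem_xf, and_iff_right hL]
      rw [hx, or_iff_left (show ¬ (l ∈ G.KN G.Yd ∨ l ∈ G.RtW) by tauto)]
      by_cases hU : l ∈ FcL G
      · have e : rL G l = dn l := if_pos hU
        have h3 := dn_E hG hU
        have h2 : dn l ∉ G.WL.W := by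
          rw [hW, mem_union]
          rintro (h4 | h4)
          · exact E_W0 hG h3.1 _ h4
          · exact h3.2 (RtW_sub h4)
        rw [e, WD.mem_st h2, hF]
        simp only [hU, not_true_eq_false, not_false_eq_true, false_and, true_and, false_or, or_false]
      · have e : rL G l = l := if_neg hU
        have h2 : l ∉ G.WL.W := by
          rw [hW, mem_union]
          tauto
        rw [e, WD.mem_st h2, hF]
        simp only [hU, not_true_eq_false, not_false_eq_true, false_and, true_and, false_or, or_false]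
  · have hR : l ∉ G.Rt := fun h => hE (mem_Rt.1 h).1
    have hU : l ∉ FcL G := fun h => hE (mem_FcL.1 h).1
    have hx : l ∉ xf (Lv G) (rL G) (fun l => rL G l ∈ G.FL) ω := fun h =>
      hE (mem_Lv.1 (mem_xf.1 h).1).1.1
    have h2 : l ∈ G.WL.st ω ↔ l ∈ G.WL.W :=
      WD.mem_st' (fun h => hE (hωE l h).1) (by rw [hF]; exact fun h => hE (mem_FL.1 h).1)
    rw [h2, hW, mem_union]
    tauto

/-- **V-EQ.** -/
theorem veq [DecidableEq κ] (V : Finset (ℤ × ℤ) → ℂ)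
    (hV : ∀ w w' : Finset (ℤ × ℤ), (∀ l, l ∉ G.DN G.xs G.Yd → (l ∈ w ↔ l ∈ w')) → V w = V w') :
    EB G.E (bb G.plU) (fun ω => V (Force (FcU G) up (G.WU.st ω))) =
      EB (G.E \ G.Rt) (bb G.plL) (fun ω => V (Force (FcL G) dn (G.WL.st ω))) := by
  have e1 : EB G.E (bb G.plU) (fun ω => V (Force (FcU G) up (G.WU.st ω))) =
      EB G.E (bb G.plU) (fun ω => (fun η => V (η ∪ (G.KN G.Yd ∪ G.RtW)))
        (xf (Lv G) (rU G) (fun l => rU G l ∈ G.FU) ω)) :=
    EB_congr fun ω hω => hV _ _ fun l hl => st_U hG hω hl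
  have e2 : EB (G.E \ G.Rt) (bb G.plL) (fun ω => V (Force (FcL G) dn (G.WL.st ω))) =
      EB (G.E \ G.Rt) (bb G.plL) (fun ω => (fun η => V (η ∪ (G.KN G.Yd ∪ G.RtW)))
        (xf (Lv G) (rL G) (fun l => rL G l ∈ G.FL) ω)) :=
    EB_congr fun ω hω => hV _ _ fun l hl => st_L hG hω hl
  rw [e1, e2]
  refine law_eq (E1 := G.E) (b1 := bb G.plU) (E2 := G.E \ G.Rt) (b2 := bb G.plL) (L := Lv G) (r1 := rU G)
    (r2 := rL G) (f1 := fun l => rU G l ∈ G.FU) (f2 := fun l => rL G l ∈ G.FL) (fun l hl => ?_)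
    (fun l hl => ?_) (fun l hl l' hl' => ?_) (fun l hl l' hl' h => ?_)
    (fun η => V (η ∪ (G.KN G.Yd ∪ G.RtW)))
  · obtain ⟨⟨hE, hR⟩, -⟩ := mem_Lv.1 hl
    unfold rU
    split_ifs with h1
    · exact up_E hG h1 hR
    · exact hE
  · obtain ⟨⟨hE, hR⟩, -⟩ := mem_Lv.1 hl
    unfold rL
    split_ifs with h1
    · exact mem_sdiff.2 (dn_E hG h1)
    · exact mem_sdiff.2 ⟨hE, hR⟩
  · rw [blk_eq hG hl, blk_eq hG hl']
  · rw [flip_iff hG hl, flip_iff hG hl']
    exact ⟨inS_blk hG hl hl' h, inS_blk hG hl' hl h.symm⟩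

end Pool.Agent.H37.W
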